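import Pool.Agent.H52DS.Gadget

/-!
# The two lower bounds for multidimensional matching
-/

namespace Pool.Agent.H52DS
open Module

variable {K : Type*} [Field K]

/-- the number of matrices needed if every part owns only one row, and the test is linear -/
theorem bound_one {n e k : ℕ} (N : Fin k → ℕ)
    (A : ∀ i, (Fin n → (Fin (e + 1) → Fin n) → Bool) → Matrix (Fin (N i)) (Fin (N i)) K)
    (hA : ∀ i, RowWise 1 (A i)) (Λ : Submodule K (Fin k → K))
    (hdec : ∀ T, HasPM T ↔ (fun i => (A i T).det) ∉ Λ) :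
    (n.choose (n / 2)) ^ e ≤ k := by
  classical
  have hfam : Fam n (e + 1) (n / 2) (n - n / 2)
      (P := Fin (e + 1) → {S : Finset (Fin n) // S.card = n / 2})
      (fun p i => (p i).1) (fun _ => Finset.univ) :=
    { hn := by omega
      hS := fun p i => (p i).2
      hU := by
        intro p
        rw [Finset.card_univ, Fintype.card_fin]
        omega
      hsub := fun _ _ => Finset.subset_univ _
      hcov := fun _ => Or.inl rfl
      hinj := by
        intro p q hpq _
        funext i
        exact Subtype.ext (hpq i) }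
  have h1 := lower_linear _ _ hfam N A hA Λ hdec
  have h2 : n / 2 + (n - n / 2) = n := by omega
  have h3 : Fintype.card (Fin (e + 1) → {S : Finset (Fin n) // S.card = n / 2}) =
      (n.choose (n / 2)) ^ (e + 1) := by
    rw [Fintype.card_fun, Fintype.card_finset_len, Fintype.card_fin, Fintype.card_fin]
  rw [h3, h2, one_mul, one_mul, pow_succ] at h1
  exact Nat.le_of_mul_le_mul_right h1 (Nat.choose_pos (by omega))

/-- weights of patterns -/
noncomputable def wt (e r : ℕ) (c : Fin e → Bool) : ℝ :=
  if c = (fun _ => false) then 1 else if c = (fun _ => true) then 0 else ((2 : ℝ) ^ r)⁻¹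

theorem sum_wt (e r : ℕ) (he : 1 ≤ e) :
    ∑ c : Fin e → Bool, wt e r c = 1 + ((2 : ℝ) ^ e - 2) / 2 ^ r := by
  classical
  have hne : (fun _ : Fin e => false) ≠ (fun _ : Fin e => true) := by
    intro h
    have := congrFun h ⟨0, by omega⟩
    simp at this
  have h1 : ∀ c : Fin e → Bool, wt e r c = ((2 : ℝ) ^ r)⁻¹ +
      (if c = (fun _ => false) then 1 - ((2 : ℝ) ^ r)⁻¹ else 0) +
      (if c = (fun _ => true) then - ((2 : ℝ) ^ r)⁻¹ else 0) := by
    intro c
    unfold wt
    by_cases h2 : c = (fun _ => false)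
    · subst h2
      simp [hne]
    · by_cases h3 : c = (fun _ => true)
      · subst h3
        simp [hne.symm]
      · simp [h2, h3]
  simp_rw [h1]
  rw [Finset.sum_add_distrib, Finset.sum_add_distrib]
  simp only [Finset.sum_const, Finset.card_univ, Fintype.card_fun, Fintype.card_bool,
    Fintype.card_fin, Finset.sum_ite_eq', Finset.mem_univ, if_true, nsmul_eq_mul]
  push_cast
  field_simp
  ring

/-- a large class of pattern functions of the same type -/
theorem exists_class (e r m : ℕ) (he : 1 ≤ e) :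
    ∃ (C : Finset (Fin m → Fin e → Bool)) (hv : Fin e → ℕ) (u : ℕ),
      (∀ f ∈ C, ∀ i, (Finset.univ.filter (fun x => f x i = true)).card = hv i) ∧
      (∀ f ∈ C, (Finset.univ.filter (fun x => f x ≠ (fun _ => false))).card = u) ∧
      (∀ f ∈ C, ∀ x, f x ≠ (fun _ => true)) ∧
      (1 + ((2 : ℝ) ^ e - 2) / 2 ^ r) ^ m ≤
        ((m : ℝ) + 1) ^ (e + 1) * (C.card * ((2 : ℝ) ^ (r * u))⁻¹) := by
  classical
  let τ : (Fin m → Fin e → Bool) → (Fin e → Fin (m + 1)) × Fin (m + 1) := fun f =>
    (fun i => ⟨(Finset.univ.filter (fun x => f x i = true)).card, by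
      have := Finset.card_filter_le (Finset.univ : Finset (Fin m)) (fun x => f x i = true)
      rw [Finset.card_univ, Fintype.card_fin] at this
      omega⟩, ⟨(Finset.univ.filter (fun x => f x ≠ (fun _ => false))).card, by
      have := Finset.card_filter_le (Finset.univ : Finset (Fin m))
        (fun x => f x ≠ (fun _ => false))
      rw [Finset.card_univ, Fintype.card_fin] at this
      omega⟩)
  let W : (Fin m → Fin e → Bool) → ℝ := fun f => ∏ x, wt e r (f x)
  have htot : ∑ f, W f = (1 + ((2 : ℝ) ^ e - 2) / 2 ^ r) ^ m := by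
    rw [← sum_wt e r he, Fintype.sum_pow]
  have hM : (0 : ℝ) < ((m : ℝ) + 1) ^ (e + 1) := by positivity
  obtain ⟨t, -, ht⟩ := Finset.exists_le_sum_fiber_of_maps_to_of_nsmul_le_sum
    (s := (Finset.univ : Finset (Fin m → Fin e → Bool)))
    (t := (Finset.univ : Finset ((Fin e → Fin (m + 1)) × Fin (m + 1)))) (f := τ) (w := W)
    (b := (1 + ((2 : ℝ) ^ e - 2) / 2 ^ r) ^ m / ((m : ℝ) + 1) ^ (e + 1))
    (fun _ _ => Finset.mem_univ _) Finset.univ_nonempty
    (by
      rw [htot, nsmul_eq_mul, Finset.card_univ, Fintype.card_prod, Fintype.card_fun,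
        Fintype.card_fin, Fintype.card_fin]
      push_cast
      rw [← pow_succ, mul_div_cancel₀]
      exact hM.ne')
  refine ⟨Finset.univ.filter (fun f => τ f = t ∧ ∀ x, f x ≠ (fun _ => true)),
    fun i => (t.1 i).val, t.2.val, ?_, ?_, ?_, ?_⟩
  · intro f hf i
    simp only [Finset.mem_filter, Finset.mem_univ, true_and] at hf
    rw [← hf.1]
  · intro f hf
    simp only [Finset.mem_filter, Finset.mem_univ, true_and] at hf
    rw [← hf.1]
  · intro f hf
    simp only [Finset.mem_filter, Finset.mem_univ, true_and] at hf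
    exact hf.2
  · have h1 : ∑ f ∈ Finset.univ.filter (fun f => τ f = t), W f =
        (Finset.univ.filter (fun f => τ f = t ∧ ∀ x, f x ≠ (fun _ => true))).card *
          ((2 : ℝ) ^ (r * t.2.val))⁻¹ := by
      rw [← Finset.filter_filter, ← nsmul_eq_mul, ← Finset.sum_const,
        Finset.sum_filter (s := Finset.univ.filter (fun f => τ f = t))]
      apply Finset.sum_congr rfl
      intro f hf
      simp only [Finset.mem_filter, Finset.mem_univ, true_and] at hf
      by_cases h2 : ∀ x, f x ≠ (fun _ => true)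
      · rw [if_pos h2]
        have h3 : ∀ x, wt e r (f x) =
            if f x ≠ (fun _ => false) then ((2 : ℝ) ^ r)⁻¹ else 1 := by
          intro x
          unfold wt
          by_cases h4 : f x = (fun _ => false)
          · simp [h4]
          · simp [h4, h2 x]
        simp only [W]
        rw [Finset.prod_congr rfl (fun x _ => h3 x), Finset.prod_ite, Finset.prod_const,
          Finset.prod_const_one, mul_one, ← hf, inv_pow, ← pow_mul]
      · rw [if_neg h2]
        push Not at h2
        obtain ⟨x, hx⟩ := h2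
        apply Finset.prod_eq_zero (Finset.mem_univ x)
        unfold wt
        have hne : (fun _ : Fin e => true) ≠ (fun _ : Fin e => false) := by
          intro h
          have := congrFun h ⟨0, by omega⟩
          simp at this
        rw [hx]
        simp [hne]
    rw [← h1]
    rwa [div_le_iff₀ hM, mul_comm] at ht

theorem bound_core (n e r D κ : ℕ) (he : 1 ≤ e)
    (H : ∀ (P : Type) [Fintype P] (h h' : ℕ) (S : P → Fin e → Finset (Fin n))
      (U : P → Finset (Fin n)), Fam n e h h' S U →
      Fintype.card P ≤ κ * (r * (h + h')).choose (r * h) ^ D) :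
    (1 + ((2 : ℝ) ^ e - 2) / 2 ^ (r * D)) ^ (n - 1) ≤ κ * ((n : ℝ) / 2 + 1) ^ (2 * e + 2) := by
  classical
  obtain ⟨C, hv, u, hC1, hC2, hC3, hC4⟩ := exists_class e (r * D) (n / 2) he
  rcases C.eq_empty_or_nonempty with hCe | ⟨f0, hf0⟩
  · exfalso
    rw [hCe] at hC4
    simp only [Finset.card_empty, Nat.cast_zero, zero_mul, mul_zero] at hC4
    have h2 : (0 : ℝ) < (1 + ((2 : ℝ) ^ e - 2) / 2 ^ (r * D)) ^ (n / 2) := by
      apply pow_pos
      have h3 : (2 : ℝ) ≤ 2 ^ e := by
        calc (2 : ℝ) = 2 ^ 1 := by norm_num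
          _ ≤ 2 ^ e := pow_le_pow_right₀ (by norm_num) he
      have h4 : 0 ≤ ((2 : ℝ) ^ e - 2) / 2 ^ (r * D) := by
        apply div_nonneg
        · linarith
        · positivity
      linarith
    linarith
  have hcard : Fintype.card (Fin (n / 2) ⊕ Fin (n / 2)) ≤ Fintype.card (Fin n) := by
    simp only [Fintype.card_sum, Fintype.card_fin]
    omega
  obtain ⟨φ⟩ := Function.Embedding.nonempty_of_card_le hcard
  have hun : u + u ≤ n := by
    have h1 := hC2 f0 hf0
    have h2 := Finset.card_filter_le (Finset.univ : Finset (Fin (n / 2)))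
      (fun x => f0 x ≠ (fun _ => false))
    rw [Finset.card_univ, Fintype.card_fin] at h2
    omega
  let S1 : (Fin (n / 2) → Fin e → Bool) → Fin e → Finset (Fin (n / 2)) := fun f i =>
    Finset.univ.filter (fun x => f x i = true)
  let S2 : (Fin (n / 2) → Fin e → Bool) → Fin e → Finset (Fin (n / 2)) := fun f i =>
    Finset.univ.filter (fun x => f x ≠ (fun _ => false) ∧ f x i = false)
  let U1 : (Fin (n / 2) → Fin e → Bool) → Finset (Fin (n / 2)) := fun f =>
    Finset.univ.filter (fun x => f x ≠ (fun _ => false))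
  have hS1U : ∀ f i, S1 f i ⊆ U1 f := by
    intro f i x hx
    simp only [S1, U1, Finset.mem_filter, Finset.mem_univ, true_and] at hx ⊢
    intro h
    rw [h] at hx
    simp at hx
  have hS2U : ∀ f i, S2 f i = U1 f \ S1 f i := by
    intro f i
    ext x
    simp only [S1, S2, U1, Finset.mem_filter, Finset.mem_univ, true_and, Finset.mem_sdiff,
      Bool.not_eq_true]
  have hfam : Fam n e u u (P := C × C)
    (fun p i => ((S1 p.1.1 i).disjSum (S2 p.2.1 i)).map φ)
    (fun p => ((U1 p.1.1).disjSum (U1 p.2.1)).map φ) := by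
    refine ⟨hun, ?_, ?_, ?_, ?_, ?_⟩
    · rintro ⟨⟨f, hf⟩, ⟨g, hg⟩⟩ i
      rw [Finset.card_map, Finset.card_disjSum]
      simp only
      rw [hS2U, Finset.card_sdiff_of_subset (hS1U g i)]
      have h1 := hC1 f hf i
      have h2 := hC1 g hg i
      have h3 := hC2 g hg
      have h4 := Finset.card_le_card (hS1U g i)
      simp only [S1, U1] at h4 ⊢
      omega
    · rintro ⟨⟨f, hf⟩, ⟨g, hg⟩⟩
      rw [Finset.card_map, Finset.card_disjSum]
      have h1 := hC2 f hf
      have h2 := hC2 g hg
      simp only [U1]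
      omega
    · rintro ⟨⟨f, hf⟩, ⟨g, hg⟩⟩ i
      apply Finset.map_subset_map.2
      apply Finset.disjSum_mono
      · exact hS1U f i
      · simp only
        rw [hS2U]
        exact Finset.sdiff_subset
    · rintro ⟨⟨f, hf⟩, ⟨g, hg⟩⟩
      right
      have hnt : ∀ c : Fin e → Bool, c ≠ (fun _ => false) → ∃ i, c i = true := by
        intro c hc
        by_contra h
        push Not at h
        apply hc
        funext i
        simpa using h i
      have hnf : ∀ c : Fin e → Bool, c ≠ (fun _ => true) → ∃ i, c i = false := by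
        intro c hc
        by_contra h
        push Not at h
        apply hc
        funext i
        simpa using h i
      constructor
      · intro x hx
        obtain ⟨y, hy, rfl⟩ := Finset.mem_map.1 hx
        rcases y with y | y
        · rw [Finset.inl_mem_disjSum] at hy
          simp only [U1, Finset.mem_filter, Finset.mem_univ, true_and] at hy
          obtain ⟨i, hi⟩ := hnt _ hy
          refine ⟨i, ?_⟩
          rw [Finset.mem_map' φ, Finset.inl_mem_disjSum]
          simpa [S1] using hi
        · rw [Finset.inr_mem_disjSum] at hy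
          simp only [U1, Finset.mem_filter, Finset.mem_univ, true_and] at hy
          obtain ⟨i, hi⟩ := hnf _ (hC3 g hg y)
          refine ⟨i, ?_⟩
          rw [Finset.mem_map' φ, Finset.inr_mem_disjSum]
          simp only [S2, Finset.mem_filter, Finset.mem_univ, true_and]
          exact ⟨hy, hi⟩
      · intro x hx
        obtain ⟨y, hy, rfl⟩ := Finset.mem_map.1 hx
        rcases y with y | y
        · rw [Finset.inl_mem_disjSum] at hy
          simp only [U1, Finset.mem_filter, Finset.mem_univ, true_and] at hy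
          obtain ⟨i, hi⟩ := hnf _ (hC3 f hf y)
          refine ⟨i, ?_⟩
          rw [Finset.mem_map' φ, Finset.inl_mem_disjSum]
          simp [S1, hi]
        · rw [Finset.inr_mem_disjSum] at hy
          simp only [U1, Finset.mem_filter, Finset.mem_univ, true_and] at hy
          obtain ⟨i, hi⟩ := hnt _ hy
          refine ⟨i, ?_⟩
          rw [Finset.mem_map' φ, Finset.inr_mem_disjSum]
          simp [S2, hi]
    · rintro ⟨⟨f, hf⟩, ⟨g, hg⟩⟩ ⟨⟨f', hf'⟩, ⟨g', hg'⟩⟩ hSS hUU
      simp only at hSS hUU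
      have h1 := Finset.map_injective φ hUU
      have h2 : ∀ i, (S1 f i).disjSum (S2 g i) = (S1 f' i).disjSum (S2 g' i) :=
        fun i => Finset.map_injective φ (hSS i)
      have hff : f = f' := by
        funext x i
        have h3 : Sum.inl x ∈ (S1 f i).disjSum (S2 g i) ↔
            Sum.inl x ∈ (S1 f' i).disjSum (S2 g' i) := by rw [h2 i]
        rw [Finset.inl_mem_disjSum, Finset.inl_mem_disjSum] at h3
        simp only [S1, Finset.mem_filter, Finset.mem_univ, true_and] at h3
        exact Bool.eq_iff_iff.2 h3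
      have hgg : g = g' := by
        funext x i
        have h3 : Sum.inr x ∈ (S1 f i).disjSum (S2 g i) ↔
            Sum.inr x ∈ (S1 f' i).disjSum (S2 g' i) := by rw [h2 i]
        have h4 : Sum.inr x ∈ (U1 f).disjSum (U1 g) ↔
            Sum.inr x ∈ (U1 f').disjSum (U1 g') := by rw [h1]
        rw [Finset.inr_mem_disjSum, Finset.inr_mem_disjSum] at h3 h4
        have h5 : ∀ g : Fin (n / 2) → Fin e → Bool, g x i = true ↔ x ∈ U1 g ∧ ¬ x ∈ S2 g i := by
          intro g
          simp only [U1, S2, Finset.mem_filter, Finset.mem_univ, true_and, not_and,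
            Bool.not_eq_false]
          constructor
          · intro h6
            refine ⟨?_, fun _ => h6⟩
            intro h7
            rw [h7] at h6
            simp at h6
          · rintro ⟨h6, h7⟩
            exact h7 h6
        apply Bool.eq_iff_iff.2
        rw [h5 g, h5 g', h3, h4]
      subst hff
      subst hgg
      rfl
  have key := H (C × C) u u _ _ hfam
  have hcc : Fintype.card (C × C) = C.card * C.card := by
    rw [Fintype.card_prod, Fintype.card_coe]
  rw [hcc] at key
  have key2 : (C.card : ℝ) * C.card ≤ κ * (2 : ℝ) ^ (r * D * (u + u)) := by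
    have h1 : C.card * C.card ≤ κ * 2 ^ (r * D * (u + u)) := by
      refine key.trans (Nat.mul_le_mul_left κ ?_)
      refine (Nat.pow_le_pow_left (Nat.choose_le_two_pow _ _) D).trans ?_
      rw [← pow_mul]
      apply le_of_eq
      congr 1
      ring
    exact_mod_cast h1
  have hbase : (1 : ℝ) ≤ 1 + ((2 : ℝ) ^ e - 2) / 2 ^ (r * D) := by
    have h3 : (2 : ℝ) ≤ 2 ^ e := by
      calc (2 : ℝ) = 2 ^ 1 := by norm_num
        _ ≤ 2 ^ e := pow_le_pow_right₀ (by norm_num) he
    have h4 : 0 ≤ ((2 : ℝ) ^ e - 2) / 2 ^ (r * D) := by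
      apply div_nonneg
      · linarith
      · positivity
    linarith
  set b : ℝ := 1 + ((2 : ℝ) ^ e - 2) / 2 ^ (r * D) with hb
  have h5 : (b ^ (n / 2)) ^ 2 ≤ (((n / 2 : ℕ) : ℝ) + 1) ^ (2 * e + 2) * κ := by
    have h6 : (b ^ (n / 2)) ^ 2 ≤
        ((((n / 2 : ℕ) : ℝ) + 1) ^ (e + 1) * (C.card * ((2 : ℝ) ^ (r * D * u))⁻¹)) ^ 2 := by
      apply pow_le_pow_left₀ _ hC4
      positivity
    refine h6.trans ?_
    have h7 : ((((n / 2 : ℕ) : ℝ) + 1) ^ (e + 1) * (C.card * ((2 : ℝ) ^ (r * D * u))⁻¹)) ^ 2 =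
        (((n / 2 : ℕ) : ℝ) + 1) ^ (2 * e + 2) * ((C.card * C.card) * ((2 : ℝ) ^ (r * D * (u + u)))⁻¹) := by
      have h8 : (2 : ℝ) ^ (r * D * (u + u)) = 2 ^ (r * D * u) * 2 ^ (r * D * u) := by
        rw [← pow_add]
        congr 1
        ring
      rw [h8, mul_inv]
      ring
    rw [h7]
    apply mul_le_mul_of_nonneg_left _ (by positivity)
    rw [← div_eq_mul_inv, div_le_iff₀ (by positivity)]
    exact key2
  calc b ^ (n - 1) ≤ b ^ (n / 2 * 2) := pow_le_pow_right₀ hbase (by omega)
    _ = (b ^ (n / 2)) ^ 2 := by rw [pow_mul]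
    _ ≤ (((n / 2 : ℕ) : ℝ) + 1) ^ (2 * e + 2) * κ := h5
    _ ≤ ((n : ℝ) / 2 + 1) ^ (2 * e + 2) * κ := by
      apply mul_le_mul_of_nonneg_right _ (by positivity)
      apply pow_le_pow_left₀ (by positivity)
      have : ((n / 2 : ℕ) : ℝ) ≤ (n : ℝ) / 2 := Nat.cast_div_le
      linarith
    _ = κ * ((n : ℝ) / 2 + 1) ^ (2 * e + 2) := by ring

theorem bound_poly {n e k r D : ℕ} (he : 1 ≤ e) (N : Fin k → ℕ)
    (A : ∀ i, (Fin n → (Fin e → Fin n) → Bool) → Matrix (Fin (N i)) (Fin (N i)) K)
    (hA : ∀ i, RowWise r (A i)) (Z : Set (MvPolynomial (Fin k) K))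
    (hZ : ∀ f ∈ Z, f.totalDegree ≤ D)
    (hdec : ∀ T, HasPM T ↔ ∃ f ∈ Z, MvPolynomial.eval (fun i => (A i T).det) f ≠ 0) :
    (1 + ((2 : ℝ) ^ e - 2) / 2 ^ (r * D)) ^ (n - 1) ≤
      ((k + D).choose D : ℝ) * ((n : ℝ) / 2 + 1) ^ (2 * e + 2) := by
  apply bound_core n e r D ((k + D).choose D) he
  intro P _ h h' S U hfam
  exact lower_poly S U hfam N A hA Z hZ hdec

end Pool.Agent.H52DS
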