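import Pool.Agent.H52DS.Gadget

/-!
# A chain of blocks as an instance of three-dimensional matching

The instance given by `x` and `y` has a perfect matching if and only if a chain of relations
`step (x i) (y i) (s i) (s (i + 1))` leads from the state `false` to the state `true`. The value `x i`
is used only by the element `Y i`, and `y i` only by `Z i`.
-/

namespace Pool.Agent.H52DS

/-- the elements -/
inductive Role (h : ℕ) (V : Type) : Type
  | E : Role h V
  | Y (i : Fin h) : Role h V
  | Z (i : Fin h) : Role h V
  | S (i : Fin h) (v : V) (s : Bool) : Role h V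
  | L (i : Fin (h + 1)) (t : Bool) : Role h V

namespace Role

variable {h : ℕ} {V : Type}

/-- the equivalence with a sum type -/
def equivSum : Role h V ≃ Unit ⊕ Fin h ⊕ Fin h ⊕ (Fin h × V × Bool) ⊕ (Fin (h + 1) × Bool) where
  toFun
    | E => Sum.inl ()
    | Y i => Sum.inr (Sum.inl i)
    | Z i => Sum.inr (Sum.inr (Sum.inl i))
    | S i v s => Sum.inr (Sum.inr (Sum.inr (Sum.inl (i, v, s))))
    | L i t => Sum.inr (Sum.inr (Sum.inr (Sum.inr (i, t))))
  invFun
    | Sum.inl () => E
    | Sum.inr (Sum.inl i) => Y i
    | Sum.inr (Sum.inr (Sum.inl i)) => Z i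
    | Sum.inr (Sum.inr (Sum.inr (Sum.inl (i, v, s)))) => S i v s
    | Sum.inr (Sum.inr (Sum.inr (Sum.inr (i, t)))) => L i t
  left_inv a := by cases a <;> rfl
  right_inv a := by
    rcases a with _ | _ | _ | ⟨_, _, _⟩ | ⟨_, _⟩ <;> rfl

noncomputable instance [Fintype V] : Fintype (Role h V) := Fintype.ofEquiv _ equivSum.symm

theorem card [Fintype V] : Fintype.card (Role h V) = 3 + h * (2 * Fintype.card V + 4) := by
  rw [Fintype.card_congr equivSum]
  simp only [Fintype.card_sum, Fintype.card_unit, Fintype.card_fin, Fintype.card_prod,
    Fintype.card_bool]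
  ring

/-- the alternative element of `L i t` -/
def alt (i : Fin (h + 1)) : Role h V := Fin.cases E (fun j => Z j) i

/-- the element which covers `L i t` if it is not covered by itself -/
def alt' (i : Fin (h + 1)) : Role h V := Fin.lastCases E (fun j => Y j) i

@[simp] theorem alt_zero : (alt 0 : Role h V) = E := rfl
@[simp] theorem alt_succ (j : Fin h) : (alt j.succ : Role h V) = Z j := rfl
@[simp] theorem alt'_last : (alt' (Fin.last h) : Role h V) = E := by simp [alt']
@[simp] theorem alt'_castSucc (j : Fin h) : (alt' j.castSucc : Role h V) = Y j := by simp [alt']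

/-- the allowed triples -/
def Allowed (step : V → V → Bool → Bool → Prop) (x y : Fin h → V) :
    Role h V → Role h V → Role h V → Prop
  | E, u, v => u = L (Fin.last h) true ∧ v = L 0 false
  | Y i, u, v => ∃ s, u = L i.castSucc s ∧ v = S i (x i) s
  | Z i, u, v => ∃ w s s', step w (y i) s s' ∧ u = S i w s ∧ v = L i.succ s'
  | S i w s, u, v => (u = S i w s ∧ v = S i w s) ∨ (u = Y i ∧ v = Y i)
  | L i t, u, v => (u = L i t ∧ v = L i t) ∨ (u = alt i ∧ v = alt i)

theorem chain_forward (step : V → V → Bool → Bool → Prop) (x y : Fin h → V)
    (p q : Equiv.Perm (Role h V)) (hpq : ∀ a, Allowed step x y a (p a) (q a)) :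
    ∃ s : Fin (h + 1) → Bool, s 0 = false ∧ s (Fin.last h) = true ∧
      ∀ i, step (x i) (y i) (s i.castSucc) (s i.succ) := by
  have hE := hpq E
  simp only [Allowed] at hE
  have key : ∀ m : Fin (h + 1), ∃ s : Fin (h + 1) → Bool, s 0 = false ∧
      (∀ j, j ≤ m → q (L j (s j)) ≠ L j (s j)) ∧
      ∀ i : Fin h, i.succ ≤ m → step (x i) (y i) (s i.castSucc) (s i.succ) := by
    intro m
    induction m using Fin.induction with
    | zero =>
      refine ⟨fun _ => false, rfl, ?_, ?_⟩
      · intro j hj
        have : j = 0 := le_antisymm hj (Fin.zero_le j)
        subst this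
        intro hq
        have : (L 0 false : Role h V) = E := q.injective (hq.trans hE.2.symm)
        exact absurd this (by simp)
      · intro i hi
        exact absurd (le_antisymm hi (Fin.zero_le _)) (Fin.succ_ne_zero i)
    | succ m ih =>
      obtain ⟨s, hs0, hs1, hs2⟩ := ih
      -- the row `L m (s m)` is not default
      have h1 := hs1 m.castSucc le_rfl
      have h2 := hpq (L m.castSucc (s m.castSucc))
      simp only [Allowed] at h2
      have h3 : p (L m.castSucc (s m.castSucc)) = alt m.castSucc := by
        rcases h2 with h2 | h2
        · exact absurd h2.2 h1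
        · exact h2.1
      -- who covers `L m (s m)` in the first coordinate
      have h4 : ∃ a, p a = L m.castSucc (s m.castSucc) := p.surjective _
      obtain ⟨a, ha⟩ := h4
      have h5 := hpq a
      rw [ha] at h5
      have hY : q (Y m) = S m (x m) (s m.castSucc) := by
        cases a with
        | E =>
          simp only [Allowed] at h5
          have := h5.1
          simp only [L.injEq] at this
          exact absurd this.1 (Fin.castSucc_lt_last m).ne
        | Y i =>
          simp only [Allowed] at h5
          obtain ⟨s', h6, h7⟩ := h5
          simp only [L.injEq] at h6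
          obtain ⟨h8, h9⟩ := h6
          have h10 : m = i := Fin.castSucc_injective _ h8
          subst h10
          rw [h7, ← h9]
        | Z i =>
          simp only [Allowed] at h5
          obtain ⟨_, _, _, _, h6, _⟩ := h5
          exact absurd h6 (by simp)
        | S i w s' =>
          simp only [Allowed] at h5
          rcases h5 with h5 | h5
          · exact absurd h5.1 (by simp)
          · exact absurd h5.1 (by simp)
        | L i t =>
          simp only [Allowed] at h5
          rcases h5 with h5 | h5
          · have h6 := h5.1
            simp only [L.injEq] at h6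
            obtain ⟨h7, h8⟩ := h6
            subst h7
            subst h8
            exact absurd h5.2 h1
          · exfalso
            have h6 := h5.1
            revert h6
            refine Fin.cases ?_ (fun j => ?_) i
            · simp
            · simp
      -- the row `S m (x m) (s m)` is not default
      have h6 := hpq (S m (x m) (s m.castSucc))
      simp only [Allowed] at h6
      have h7 : p (S m (x m) (s m.castSucc)) ≠ S m (x m) (s m.castSucc) := by
        rcases h6 with h6 | h6
        · exfalso
          have h8 : (Y m : Role h V) = S m (x m) (s m.castSucc) := q.injective (hY.trans h6.2.symm)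
          exact absurd h8 (by simp)
        · rw [h6.1]
          simp
      obtain ⟨b, hb⟩ := p.surjective (S m (x m) (s m.castSucc))
      have h8 := hpq b
      rw [hb] at h8
      have hZ : ∃ s', step (x m) (y m) (s m.castSucc) s' ∧ q (Z m) = L m.succ s' := by
        cases b with
        | E =>
          simp only [Allowed] at h8
          exact absurd h8.1 (by simp)
        | Y i =>
          simp only [Allowed] at h8
          obtain ⟨_, h9, _⟩ := h8
          exact absurd h9 (by simp)
        | Z i =>
          simp only [Allowed] at h8
          obtain ⟨w, s1, s', h9, h10, h11⟩ := h8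
          simp only [S.injEq] at h10
          obtain ⟨h12, h13, h14⟩ := h10
          subst h12
          refine ⟨s', ?_, h11⟩
          rw [h13, h14]
          exact h9
        | S i w s' =>
          simp only [Allowed] at h8
          rcases h8 with h8 | h8
          · have h9 := h8.1
            simp only [S.injEq] at h9
            obtain ⟨h12, h13, h14⟩ := h9
            subst h12
            subst h14
            exfalso
            apply h7
            rw [h13]
            rw [h13] at hb
            exact hb
          · exact absurd h8.1 (by simp)
        | L i t =>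
          simp only [Allowed] at h8
          rcases h8 with h8 | h8
          · exact absurd h8.1 (by simp)
          · exfalso
            have h9 := h8.1
            revert h9
            refine Fin.cases ?_ (fun j => ?_) i
            · simp
            · simp
      obtain ⟨s', hst, hq⟩ := hZ
      refine ⟨Function.update s m.succ s', ?_, ?_, ?_⟩
      · rw [Function.update_of_ne (Fin.succ_ne_zero m).symm]
        exact hs0
      · intro j hj
        by_cases hjm : j = m.succ
        · subst hjm
          rw [Function.update_self]
          intro h9
          have : (L m.succ s' : Role h V) = Z m := q.injective (h9.trans hq.symm)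
          exact absurd this (by simp)
        · rw [Function.update_of_ne hjm]
          apply hs1
          have h10 : j < m.succ := lt_of_le_of_ne hj hjm
          exact Fin.le_castSucc_iff.2 h10
      · intro i hi
        by_cases him : i = m
        · subst him
          rw [Function.update_self, Function.update_of_ne (by
            intro h9
            exact absurd h9 (Fin.castSucc_lt_succ).ne)]
          exact hst
        · have h10 : i.succ ≠ m.succ := fun h9 => him (Fin.succ_injective _ h9)
          have h11 : i.succ < m.succ := lt_of_le_of_ne hi h10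
          have h12 : i.castSucc ≠ m.succ := by
            have := (Fin.castSucc_lt_succ (i := i)).trans h11
            exact this.ne
          rw [Function.update_of_ne h10, Function.update_of_ne h12]
          exact hs2 i (Fin.le_castSucc_iff.2 h11)
  obtain ⟨s, hs0, hs1, hs2⟩ := key (Fin.last h)
  refine ⟨s, hs0, ?_, fun i => hs2 i (Fin.le_last _)⟩
  by_contra hlast
  have hfalse : s (Fin.last h) = false := by simpa using hlast
  have h1 := hs1 (Fin.last h) le_rfl
  obtain ⟨a, ha⟩ := p.surjective (L (Fin.last h) (s (Fin.last h)))
  have h5 := hpq a
  rw [ha] at h5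
  cases a with
  | E =>
    simp only [Allowed] at h5
    have := h5.1
    rw [hfalse] at this
    simp at this
  | Y i =>
    simp only [Allowed] at h5
    obtain ⟨s', h6, h7⟩ := h5
    simp only [L.injEq] at h6
    exact absurd h6.1.symm (Fin.castSucc_lt_last i).ne
  | Z i =>
    simp only [Allowed] at h5
    obtain ⟨_, _, _, _, h6, _⟩ := h5
    exact absurd h6 (by simp)
  | S i w s' =>
    simp only [Allowed] at h5
    rcases h5 with h5 | h5
    · exact absurd h5.1 (by simp)
    · exact absurd h5.1 (by simp)
  | L i t =>
    simp only [Allowed] at h5
    rcases h5 with h5 | h5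
    · have h6 := h5.1
      simp only [L.injEq] at h6
      obtain ⟨h7, h8⟩ := h6
      subst h7
      subst h8
      exact h1 h5.2
    · have h6 := h5.1
      revert h6
      refine Fin.cases ?_ (fun j => ?_) i
      · simp
      · simp

section backward

variable [DecidableEq V] (x : Fin h → V) (s : Fin (h + 1) → Bool)

/-- the first permutation -/
def fp : Role h V → Role h V
  | E => L (Fin.last h) (s (Fin.last h))
  | Y i => L i.castSucc (s i.castSucc)
  | Z i => S i (x i) (s i.castSucc)
  | S i v t => if v = x i ∧ t = s i.castSucc then Y i else S i v t
  | L i t => if t = s i then alt i else L i t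

/-- its inverse -/
def gp : Role h V → Role h V
  | E => L 0 (s 0)
  | Y i => S i (x i) (s i.castSucc)
  | Z i => L i.succ (s i.succ)
  | S i v t => if v = x i ∧ t = s i.castSucc then Z i else S i v t
  | L i t => if t = s i then alt' i else L i t

/-- the second permutation, an involution -/
def fq : Role h V → Role h V
  | E => L 0 (s 0)
  | Y i => S i (x i) (s i.castSucc)
  | Z i => L i.succ (s i.succ)
  | S i v t => if v = x i ∧ t = s i.castSucc then Y i else S i v t
  | L i t => if t = s i then alt i else L i t

theorem gp_fp (a : Role h V) : gp x s (fp x s a) = a := by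
  cases a with
  | E => simp [fp, gp]
  | Y i => simp [fp, gp]
  | Z i => simp [fp, gp]
  | S i v t =>
    by_cases hc : v = x i ∧ t = s i.castSucc
    · simp only [fp, if_pos hc, gp]
      rw [hc.1, hc.2]
    · simp only [fp, if_neg hc, gp]
  | L i t =>
    by_cases hc : t = s i
    · simp only [fp, if_pos hc]
      subst hc
      refine Fin.cases ?_ (fun j => ?_) i
      · simp [gp]
      · simp [gp]
    · simp only [fp, if_neg hc, gp]

theorem fp_gp (a : Role h V) : fp x s (gp x s a) = a := by
  cases a with
  | E => simp [fp, gp]
  | Y i => simp [fp, gp]
  | Z i => simp [fp, gp]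
  | S i v t =>
    by_cases hc : v = x i ∧ t = s i.castSucc
    · simp only [gp, if_pos hc, fp]
      rw [hc.1, hc.2]
    · simp only [gp, if_neg hc, fp]
  | L i t =>
    by_cases hc : t = s i
    · simp only [gp, if_pos hc]
      subst hc
      refine Fin.lastCases ?_ (fun j => ?_) i
      · simp [fp]
      · simp [fp]
    · simp only [gp, if_neg hc, fp]

theorem fq_fq (a : Role h V) : fq x s (fq x s a) = a := by
  cases a with
  | E => simp [fq]
  | Y i => simp [fq]
  | Z i => simp [fq]
  | S i v t =>
    by_cases hc : v = x i ∧ t = s i.castSucc
    · simp only [fq, if_pos hc]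
      rw [hc.1, hc.2]
    · simp only [fq, if_neg hc]
  | L i t =>
    by_cases hc : t = s i
    · simp only [fq, if_pos hc]
      subst hc
      refine Fin.cases ?_ (fun j => ?_) i
      · simp [fq]
      · simp [fq]
    · simp only [fq, if_neg hc]

theorem chain_backward (step : V → V → Bool → Bool → Prop) (y : Fin h → V)
    (hs0 : s 0 = false) (hs1 : s (Fin.last h) = true)
    (hs2 : ∀ i, step (x i) (y i) (s i.castSucc) (s i.succ)) :
    ∃ p q : Equiv.Perm (Role h V), ∀ a, Allowed step x y a (p a) (q a) := by
  refine ⟨⟨fp x s, gp x s, gp_fp x s, fp_gp x s⟩, ⟨fq x s, fq x s, fq_fq x s, fq_fq x s⟩, ?_⟩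
  intro a
  simp only [Equiv.coe_fn_mk]
  cases a with
  | E => simp [Allowed, fp, fq, hs0, hs1]
  | Y i => exact ⟨s i.castSucc, rfl, rfl⟩
  | Z i => exact ⟨x i, s i.castSucc, s i.succ, hs2 i, rfl, rfl⟩
  | S i v t =>
    by_cases hc : v = x i ∧ t = s i.castSucc
    · refine Or.inr ⟨?_, ?_⟩
      · simp only [fp, if_pos hc]
      · simp only [fq, if_pos hc]
    · refine Or.inl ⟨?_, ?_⟩
      · simp only [fp, if_neg hc]
      · simp only [fq, if_neg hc]
  | L i t =>
    by_cases hc : t = s i
    · refine Or.inr ⟨?_, ?_⟩
      · simp only [fp, if_pos hc]
      · simp only [fq, if_pos hc]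
    · refine Or.inl ⟨?_, ?_⟩
      · simp only [fp, if_neg hc]
      · simp only [fq, if_neg hc]

end backward

theorem chain_iff [DecidableEq V] (step : V → V → Bool → Bool → Prop) (x y : Fin h → V) :
    (∃ p q : Equiv.Perm (Role h V), ∀ a, Allowed step x y a (p a) (q a)) ↔
    ∃ s : Fin (h + 1) → Bool, s 0 = false ∧ s (Fin.last h) = true ∧
      ∀ i, step (x i) (y i) (s i.castSucc) (s i.succ) := by
  constructor
  · rintro ⟨p, q, hpq⟩
    exact chain_forward step x y p q hpq
  · rintro ⟨s, hs0, hs1, hs2⟩
    exact chain_backward x s step y hs0 hs1 hs2

end Role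

end Pool.Agent.H52DS
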