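import Pool.Agent.H52DS.Rank

/-!
# Row-wise determinants: definitions and the general lower bound
-/

namespace Pool.Agent.H52DS
open Module

/-- A matrix function `A` of instances `T : Fin n → S` is row-wise with multiplicity `r` if every row
of `A T` is either constant or depends only on the one value `T a`, where `a` is the owner of that
row, and every `a` owns at most `r` rows. -/
def RowWise {S K : Type*} {n N : ℕ} (r : ℕ) (A : (Fin n → S) → Matrix (Fin N) (Fin N) K) : Prop :=
  ∃ o : Fin N → Option (Fin n),
    (∀ a, (Finset.univ.filter (fun l => o l = some a)).card ≤ r) ∧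
    ∀ l T T', (∀ a, o l = some a → T a = T' a) → A T l = A T' l

variable {K : Type*} [Field K]

/-- independence of the diagonal -/
theorem card_le_of_subspace {P ι : Type*} [Fintype P] [Fintype ι]
    (U : ι → Submodule K (P → K)) (hU : ∀ i, FiniteDimensional K (U i))
    (D : ι → P → P → K) (hD : ∀ i p, (fun q => D i p q) ∈ U i)
    (Λ : Submodule K (ι → K)) (h : ∀ p q, (fun i => D i p q) ∉ Λ ↔ p = q) :
    Fintype.card P ≤ ∑ i, finrank K (U i) := by
  classical
  have h1 : ∀ p, ∃ f : (ι → K) →ₗ[K] K, f (fun i => D i p p) ≠ 0 ∧ Λ ≤ LinearMap.ker f := by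
    intro p
    exact Submodule.exists_le_ker_of_notMem ((h p p).2 rfl)
  choose f hf0 hfk using h1
  let x : P → (∀ i, U i) := fun p i => ⟨fun q => D i p q, hD i p⟩
  have hli : LinearIndependent K x := by
    rw [linearIndependent_iff']
    intro s c hc p0 hp0
    have h2 : (∑ p ∈ s, c p • f p0 (fun i => D i p p0)) = 0 := by
      have h3 : (fun i => ((∑ p ∈ s, c p • x p) i : P → K) p0) =
          ∑ p ∈ s, c p • (fun i => D i p p0) := by
        ext i
        simp [x, Finset.sum_apply]
      have h4 := congrArg (f p0) h3
      rw [hc] at h4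
      have h5 : (fun i => (((0 : ∀ i, U i) i : P → K) p0)) = (0 : ι → K) := by
        ext i
        simp
      rw [h5, map_zero, map_sum] at h4
      rw [h4]
      apply Finset.sum_congr rfl
      intro p _
      rw [map_smul]
    rw [Finset.sum_eq_single p0] at h2
    · rcases smul_eq_zero.1 h2 with h6 | h6
      · exact h6
      · exact absurd h6 (hf0 p0)
    · intro p _ hp
      have h7 : (fun i => D i p p0) ∈ Λ := by
        by_contra h8
        exact hp ((h p p0).1 h8)
      rw [LinearMap.mem_ker.1 (hfk p0 h7), smul_zero]
    · intro h9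
      exact absurd hp0 h9
  have := hli.fintype_card_le_finrank
  rwa [Module.finrank_pi_fintype] at this

theorem choose_add_mono {a b A B : ℕ} (ha : a ≤ A) (hb : b ≤ B) :
    (a + b).choose a ≤ (A + B).choose A := by
  calc (a + b).choose a ≤ (a + B).choose a := Nat.choose_le_choose a (by omega)
    _ = (a + B).choose B := by
      rw [← Nat.choose_symm_of_eq_add (by omega : a + B = a + B)]
    _ ≤ (A + B).choose B := Nat.choose_le_choose B (by omega)
    _ = (A + B).choose A := by
      rw [← Nat.choose_symm_of_eq_add (by omega : A + B = A + B)]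

/-- rank of one row-wise determinant: if the part of `T p q` in `Y` depends only on `p`, the part in `Z`
only on `q`, and the remaining part is constant. -/
theorem rank_rowwise {S P : Type*} {n r N : ℕ}
    (A : (Fin n → S) → Matrix (Fin N) (Fin N) K) (hA : RowWise r A)
    (T : P → P → Fin n → S) (Y Z : Finset (Fin n)) (hYZ : Disjoint Y Z)
    (hY : ∀ a ∈ Y, ∀ p q q', T p q a = T p q' a)
    (hZ : ∀ a ∈ Z, ∀ p p' q, T p q a = T p' q a)
    (hX : ∀ a, a ∉ Y → a ∉ Z → ∀ p p' q q', T p q a = T p' q' a) :
    ∃ U : Submodule K (P → K), FiniteDimensional K U ∧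
      finrank K U ≤ (r * (Y.card + Z.card)).choose (r * Y.card) ∧
      ∀ p, (fun q => (A (T p q)).det) ∈ U := by
  classical
  obtain ⟨o, ho, hrow⟩ := hA
  let R : Finset (Fin n) → Finset (Fin N) := fun W =>
    Finset.univ.filter (fun l => ∃ a ∈ W, o l = some a)
  have hR : ∀ W, (R W).card ≤ r * W.card := by
    intro W
    have h1 : R W ⊆ W.biUnion (fun a => Finset.univ.filter (fun l => o l = some a)) := by
      intro l hl
      simp only [R, Finset.mem_filter, Finset.mem_univ, true_and] at hl
      obtain ⟨a, ha, hla⟩ := hl
      simp only [Finset.mem_biUnion, Finset.mem_filter, Finset.mem_univ, true_and]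
      exact ⟨a, ha, hla⟩
    refine (Finset.card_le_card h1).trans ?_
    refine (Finset.card_biUnion_le_card_mul _ _ r (fun a _ => ho a)).trans ?_
    rw [mul_comm]
  have hd : Disjoint (R Y) (R Z) := by
    rw [Finset.disjoint_left]
    intro l h1 h2
    simp only [R, Finset.mem_filter, Finset.mem_univ, true_and] at h1 h2
    obtain ⟨a, ha, hla⟩ := h1
    obtain ⟨b, hb, hlb⟩ := h2
    rw [hla] at hlb
    cases hlb
    exact (Finset.disjoint_left.1 hYZ ha) hb
  obtain ⟨U, hU1, hU2, hU3⟩ := rank_bound (R Y) (R Z) hd (fun p q => A (T p q))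
    (by
      intro l hl p q q'
      simp only [R, Finset.mem_filter, Finset.mem_univ, true_and] at hl
      obtain ⟨a, ha, hla⟩ := hl
      apply hrow
      intro b hb
      rw [hla] at hb
      cases hb
      exact hY a ha p q q')
    (by
      intro l hl p p' q
      simp only [R, Finset.mem_filter, Finset.mem_univ, true_and] at hl
      obtain ⟨a, ha, hla⟩ := hl
      apply hrow
      intro b hb
      rw [hla] at hb
      cases hb
      exact hZ a ha p p' q)
    (by
      intro l h1 h2 p p' q q'
      simp only [R, Finset.mem_filter, Finset.mem_univ, true_and, not_exists, not_and] at h1 h2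
      apply hrow
      intro b hb
      exact hX b (fun hbY => h1 b hbY hb) (fun hbZ => h2 b hbZ hb) p p' q q')
  refine ⟨U, hU1, hU2.trans ?_, hU3⟩
  have := choose_add_mono (hR Y) (hR Z)
  rwa [← mul_add] at this

theorem finrank_mul_le {A : Type*} [CommRing A] [Algebra K A] [FiniteDimensional K A]
    (M N : Submodule K A) :
    finrank K ↥(M * N) ≤ finrank K M * finrank K N := by
  rw [Submodule.mul_eq_map₂, TensorProduct.map₂_eq_range_lift_comp_mapIncl]
  refine (LinearMap.finrank_range_le _).trans ?_
  rw [Module.finrank_tensorProduct]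

theorem finrank_span_one_le {A : Type*} [AddCommGroup A] [Module K A] (v : A) :
    finrank K ↥(K ∙ v) ≤ 1 := by
  have h := finrank_span_le_card (R := K) ({v} : Set A)
  simpa using h

/-- independence of the diagonal for tests by polynomials of degree at most `D` -/
theorem card_le_of_poly {P : Type*} [Fintype P] {k D B : ℕ} (hB : 1 ≤ B)
    (U : Fin k → Submodule K (P → K)) (hU : ∀ i, finrank K (U i) ≤ B)
    (d : Fin k → P → P → K) (hD : ∀ i p, (fun q => d i p q) ∈ U i)
    (Z : Set (MvPolynomial (Fin k) K)) (hZ : ∀ f ∈ Z, f.totalDegree ≤ D)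
    (h : ∀ p q, (∃ f ∈ Z, MvPolynomial.eval (fun i => d i p q) f ≠ 0) ↔ p = q) :
    Fintype.card P ≤ (k + D).choose D * B ^ D := by
  classical
  let U' : Option (Fin k) → Submodule K (P → K) := fun o => o.elim (K ∙ (1 : P → K)) U
  have hU' : ∀ o, finrank K (U' o) ≤ B := by
    intro o
    cases o with
    | none =>
      exact (finrank_span_one_le (1 : P → K)).trans hB
    | some i => exact hU i
  let y : P → Option (Fin k) → (P → K) := fun p o => o.elim 1 (fun i q => d i p q)
  have hy : ∀ p o, y p o ∈ U' o := by
    intro p o
    cases o with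
    | none => exact Submodule.mem_span_singleton_self _
    | some i => exact hD i p
  have hmem : ∀ (p : P) (s : Multiset (Option (Fin k))),
      (s.map (y p)).prod ∈ (s.map U').prod := by
    intro p s
    induction s using Multiset.induction_on with
    | empty =>
      simp only [Multiset.map_zero, Multiset.prod_zero]
      exact Submodule.one_le.1 le_rfl
    | cons a s ih =>
      rw [Multiset.map_cons, Multiset.prod_cons, Multiset.map_cons, Multiset.prod_cons]
      exact Submodule.mul_mem_mul (hy p a) ih
  have hrk : ∀ (s : Multiset (Option (Fin k))) (W : Submodule K (P → K)), W = (s.map U').prod →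
      finrank K ↥W ≤ B ^ s.card := by
    intro s
    induction s using Multiset.induction_on with
    | empty =>
      intro W hW
      rw [Multiset.map_zero, Multiset.prod_zero, Submodule.one_eq_span] at hW
      rw [hW, Multiset.card_zero, pow_zero]
      exact finrank_span_one_le _
    | cons a s ih =>
      intro W hW
      rw [Multiset.map_cons, Multiset.prod_cons] at hW
      rw [hW, Multiset.card_cons, pow_succ, mul_comm (B ^ _)]
      exact (finrank_mul_le _ _).trans (Nat.mul_le_mul (hU' a) (ih _ rfl))
  have h1 : ∀ p, ∃ f ∈ Z, MvPolynomial.eval (fun i => d i p p) f ≠ 0 := fun p => (h p p).2 rfl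
  choose f hfZ hf0 using h1
  let x : P → (∀ s : Sym (Option (Fin k)) D, ↥((s.1.map U').prod)) := fun p s =>
    ⟨(s.1.map (y p)).prod, hmem p s.1⟩
  have hval : ∀ (p q : P) (g : MvPolynomial (Fin k) K) (hg : g.totalDegree ≤ D)
      (m : Fin k →₀ ℕ) (hm : m ∈ g.support), ∃ s : Sym (Option (Fin k)) D,
        s.1 = (Finsupp.toMultiset m).map some +
          Multiset.replicate (D - Multiset.card (Finsupp.toMultiset m)) none := by
    intro p q g hg m hm
    refine ⟨⟨(Finsupp.toMultiset m).map some +
          Multiset.replicate (D - Multiset.card (Finsupp.toMultiset m)) none, ?_⟩, rfl⟩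
    rw [Multiset.card_add, Multiset.card_map, Multiset.card_replicate]
    have h2 := MvPolynomial.le_totalDegree hm
    have h3 : Multiset.card (Finsupp.toMultiset m) ≤ D := by
      rw [Finsupp.card_toMultiset]
      exact h2.trans hg
    omega
  have hprod : ∀ (p q : P) (m : Fin k →₀ ℕ) (t : ℕ),
      (((Finsupp.toMultiset m).map some + Multiset.replicate t none).map (y p)).prod q =
        ∏ i, (d i p q) ^ m i := by
    intro p q m t
    rw [Multiset.map_add, Multiset.prod_add, Multiset.map_replicate, Multiset.prod_replicate,
      Multiset.map_map]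
    have h2 : y p none = 1 := rfl
    rw [h2, one_pow, mul_one, Finset.prod_multiset_map_count, Finset.prod_apply,
      Finsupp.toFinset_toMultiset]
    rw [Finset.prod_subset (Finset.subset_univ m.support)]
    · apply Finset.prod_congr rfl
      intro i _
      rw [Finsupp.count_toMultiset]
      rfl
    · intro i _ hi
      rw [Finsupp.count_toMultiset, Finsupp.notMem_support_iff.1 hi, pow_zero]
      rfl
  have hli : LinearIndependent K x := by
    rw [linearIndependent_iff']
    intro s c hc p0 hp0
    have h2 : ∀ (t : Sym (Option (Fin k)) D) (q : P),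
        ∑ p ∈ s, c p * (t.1.map (y p)).prod q = 0 := by
      intro t q
      have h3 := congrFun hc t
      rw [Finset.sum_apply] at h3
      have h3' := congrArg Subtype.val h3
      rw [AddSubmonoidClass.coe_finsetSum] at h3'
      have h3'' := congrFun h3' q
      rw [Finset.sum_apply] at h3''
      exact h3''
    have h4 : ∑ p ∈ s, c p * MvPolynomial.eval (fun i => d i p p0) (f p0) = 0 := by
      simp_rw [MvPolynomial.eval_eq', Finset.mul_sum]
      rw [Finset.sum_comm]
      apply Finset.sum_eq_zero
      intro m hm
      obtain ⟨t, ht⟩ := hval p0 p0 (f p0) (hZ _ (hfZ p0)) m hm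
      have h5 := h2 t p0
      rw [ht] at h5
      simp_rw [hprod] at h5
      calc ∑ p ∈ s, c p * (MvPolynomial.coeff m (f p0) * ∏ i, (d i p p0) ^ m i)
          = MvPolynomial.coeff m (f p0) * ∑ p ∈ s, c p * ∏ i, (d i p p0) ^ m i := by
            rw [Finset.mul_sum]
            apply Finset.sum_congr rfl
            intro p _
            ring
        _ = 0 := by rw [h5, mul_zero]
    rw [Finset.sum_eq_single p0] at h4
    · rcases mul_eq_zero.1 h4 with h6 | h6
      · exact h6
      · exact absurd h6 (hf0 p0)
    · intro p _ hp
      have h7 : MvPolynomial.eval (fun i => d i p p0) (f p0) = 0 := by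
        by_contra h8
        exact hp ((h p p0).1 ⟨f p0, hfZ p0, h8⟩)
      rw [h7, mul_zero]
    · intro h9
      exact absurd hp0 h9
  have h2 := hli.fintype_card_le_finrank
  rw [Module.finrank_pi_fintype] at h2
  refine h2.trans ?_
  refine (Finset.sum_le_card_nsmul Finset.univ _ (B ^ D) (fun s _ => ?_)).trans ?_
  · have := hrk s.1 _ rfl
    rwa [s.2] at this
  · rw [Finset.card_univ, Sym.card_sym_eq_choose, smul_eq_mul, Fintype.card_option,
      Fintype.card_fin]
    have : k + 1 + D - 1 = k + D := by omega
    rw [this]

end Pool.Agent.H52DS
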