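import Pool.Agent.H52DS.Defs
import Pool.Agent.H52DS.Lower

/-!
# Matrices whose rows depend on few parts of the instance
-/

namespace Pool.Agent.H52DS
open Module

variable {K : Type*} [Field K]

/-- the sum of finitely many subspaces -/
theorem exists_sum {ι W : Type*} [Fintype ι] [AddCommGroup W] [Module K W] [FiniteDimensional K W]
    (U : ι → Submodule K W) :
    ∃ U0 : Submodule K W, (∀ i, U i ≤ U0) ∧ finrank K U0 ≤ ∑ i, finrank K (U i) := by
  classical
  let f : (∀ i, U i) →ₗ[K] W := ∑ i, (U i).subtype ∘ₗ LinearMap.proj i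
  refine ⟨LinearMap.range f, ?_, ?_⟩
  · intro i w hw
    refine ⟨Pi.single i ⟨w, hw⟩, ?_⟩
    simp only [f, LinearMap.sum_apply, LinearMap.comp_apply, LinearMap.proj_apply,
      Submodule.subtype_apply]
    rw [Finset.sum_eq_single i]
    · simp
    · intro j _ hj
      rw [Pi.single_eq_of_ne hj]
      rfl
    · intro h
      exact absurd (Finset.mem_univ i) h
  · refine (LinearMap.finrank_range_le f).trans ?_
    rw [Module.finrank_pi_fintype]

/-- rank of one local determinant: the positions `a i` carry `x i`, the positions `b j` depend only on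
`y`; `X` contains the indices `i` such that `a i` is used together with some `b j`. -/
theorem rank_local {S V : Type*} [Fintype V] {n r h N : ℕ}
    (A : (Fin n → S) → Matrix (Fin N) (Fin N) K) (O : Fin N → Finset (Fin n))
    (hr : ∀ a, (Finset.univ.filter (fun l => a ∈ O l)).card ≤ r)
    (hO : ∀ l T T', (∀ a ∈ O l, T a = T' a) → A T l = A T' l)
    (T : (Fin h → V) → (Fin h → V) → Fin n → S) (a b : Fin h → Fin n)
    (ha : ∀ i x x' y y', x i = x' i → T x y (a i) = T x' y' (a i))
    (hb : ∀ j x x' y, T x y (b j) = T x' y (b j))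
    (hc : ∀ c, (∀ i, a i ≠ c) → (∀ j, b j ≠ c) → ∀ x x' y y', T x y c = T x' y' c)
    (X : Finset (Fin h)) (hX : ∀ i j l, a i ∈ O l → b j ∈ O l → i ∈ X) :
    ∃ U : Submodule K ((Fin h → V) → K),
      finrank K U ≤ Fintype.card V ^ X.card * (r * h + r * h).choose (r * h) ∧
      ∀ x, (fun y => (A (T x y)).det) ∈ U := by
  classical
  rcases isEmpty_or_nonempty (Fin h → V) with hP | ⟨⟨x0⟩⟩
  · exact ⟨⊥, by simp, fun x => hP.elim x⟩
  let ext : (X → V) → (Fin h → V) := fun α i => if hi : i ∈ X then α ⟨i, hi⟩ else x0 i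
  let R1 : Finset (Fin N) := Finset.univ.filter (fun l => (∃ i, a i ∈ O l) ∧ ¬ ∃ j, b j ∈ O l)
  let R2 : Finset (Fin N) := Finset.univ.filter (fun l => ∃ j, b j ∈ O l)
  have hcard : ∀ (c : Fin h → Fin n) (R : Finset (Fin N)), (∀ l ∈ R, ∃ i, c i ∈ O l) →
      R.card ≤ r * h := by
    intro c R hR
    have h1 : R ⊆ (Finset.univ : Finset (Fin h)).biUnion
        (fun i => Finset.univ.filter (fun l => c i ∈ O l)) := by
      intro l hl
      obtain ⟨i, hi⟩ := hR l hl
      simp only [Finset.mem_biUnion, Finset.mem_filter, Finset.mem_univ, true_and]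
      exact ⟨i, hi⟩
    refine (Finset.card_le_card h1).trans ?_
    refine (Finset.card_biUnion_le_card_mul _ _ r (fun i _ => hr (c i))).trans ?_
    rw [Finset.card_univ, Fintype.card_fin, mul_comm]
  have hR1 : R1.card ≤ r * h := hcard a R1 (fun l hl => (Finset.mem_filter.1 hl).2.1)
  have hR2 : R2.card ≤ r * h := hcard b R2 (fun l hl => (Finset.mem_filter.1 hl).2)
  have hd : Disjoint R1 R2 := by
    rw [Finset.disjoint_left]
    intro l h1 h2
    exact (Finset.mem_filter.1 h1).2.2 (Finset.mem_filter.1 h2).2
  have key : ∀ α : X → V, ∃ U : Submodule K ((Fin h → V) → K),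
      finrank K U ≤ (r * h + r * h).choose (r * h) ∧
      ∀ x, (∀ i : X, x i = α i) → (fun y => (A (T x y)).det) ∈ U := by
    intro α
    let g : (Fin h → V) → (Fin h → V) → Fin N → (Fin N → K) := fun x y l =>
      if (∃ i, a i ∈ O l) ∧ (∃ j, b j ∈ O l) then A (T (ext α) y) l else A (T x y) l
    have hg1 : ∀ x y l, ((∃ i, a i ∈ O l) ∧ (∃ j, b j ∈ O l)) → g x y l = A (T (ext α) y) l := by
      intro x y l h
      simp only [g]
      rw [if_pos h]
    have hg2 : ∀ x y l, ¬ ((∃ i, a i ∈ O l) ∧ (∃ j, b j ∈ O l)) → g x y l = A (T x y) l := by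
      intro x y l h
      simp only [g]
      rw [if_neg h]
    let M : (Fin h → V) → (Fin h → V) → Matrix (Fin N) (Fin N) K := fun x y => Matrix.of (g x y)
    obtain ⟨U, -, hU2, hU3⟩ := rank_bound R1 R2 hd M
      (by
        intro l hl p q q'
        have h1 := (Finset.mem_filter.1 hl).2
        show g p q l = g p q' l
        rw [hg2 _ _ _ (fun h2 => h1.2 h2.2), hg2 _ _ _ (fun h2 => h1.2 h2.2)]
        apply hO
        intro c hcl
        by_cases h3 : ∃ i, a i = c
        · obtain ⟨i, rfl⟩ := h3
          exact ha i p p q q' rfl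
        · apply hc c (fun i hi => h3 ⟨i, hi⟩)
          intro j hj
          exact h1.2 ⟨j, hj ▸ hcl⟩)
      (by
        intro l hl p p' q
        have h1 := (Finset.mem_filter.1 hl).2
        show g p q l = g p' q l
        by_cases h2 : (∃ i, a i ∈ O l) ∧ (∃ j, b j ∈ O l)
        · rw [hg1 _ _ _ h2, hg1 _ _ _ h2]
        · rw [hg2 _ _ _ h2, hg2 _ _ _ h2]
          apply hO
          intro c hcl
          have h3 : ∀ i, a i ≠ c := fun i hi => h2 ⟨⟨i, hi ▸ hcl⟩, h1⟩
          by_cases h4 : ∃ j, b j = c
          · obtain ⟨j, rfl⟩ := h4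
            exact hb j p p' q
          · exact hc c h3 (fun j hj => h4 ⟨j, hj⟩) p p' q q)
      (by
        intro l h1 h2 p p' q q'
        have h3 : ¬ ∃ j, b j ∈ O l := fun h => h2 (Finset.mem_filter.2 ⟨Finset.mem_univ _, h⟩)
        have h4 : ¬ ∃ i, a i ∈ O l :=
          fun h => h1 (Finset.mem_filter.2 ⟨Finset.mem_univ _, h, h3⟩)
        show g p q l = g p' q' l
        rw [hg2 _ _ _ (fun h => h3 h.2), hg2 _ _ _ (fun h => h3 h.2)]
        apply hO
        intro c hcl
        exact hc c (fun i hi => h4 ⟨i, hi ▸ hcl⟩) (fun j hj => h3 ⟨j, hj ▸ hcl⟩) p p' q q')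
    refine ⟨U, hU2.trans (choose_add_mono hR1 hR2), ?_⟩
    intro x hx
    have h1 : (fun y => (A (T x y)).det) = fun y => (M x y).det := by
      funext y
      congr 1
      ext l c
      show A (T x y) l c = g x y l c
      by_cases h2 : (∃ i, a i ∈ O l) ∧ (∃ j, b j ∈ O l)
      · rw [hg1 _ _ _ h2]
        have h3 : A (T x y) l = A (T (ext α) y) l := by
          apply hO
          intro c hcl
          by_cases h4 : ∃ i, a i = c
          · obtain ⟨i, rfl⟩ := h4
            obtain ⟨j, hj⟩ := h2.2
            have hi : i ∈ X := hX i j l hcl hj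
            apply ha
            simp only [ext, hi, dite_true]
            exact hx ⟨i, hi⟩
          · by_cases h5 : ∃ j, b j = c
            · obtain ⟨j, rfl⟩ := h5
              exact hb j x (ext α) y
            · exact hc c (fun i hi => h4 ⟨i, hi⟩) (fun j hj => h5 ⟨j, hj⟩) _ _ _ _
        rw [h3]
      · rw [hg2 _ _ _ h2]
    rw [h1]
    exact hU3 x
  choose U hU1 hU2 using key
  obtain ⟨U0, hU3, hU4⟩ := exists_sum U
  refine ⟨U0, hU4.trans ?_, ?_⟩
  · refine (Finset.sum_le_card_nsmul Finset.univ _ _ (fun α _ => hU1 α)).trans ?_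
    rw [Finset.card_univ, Fintype.card_fun, Fintype.card_coe, smul_eq_mul]
  · intro x
    exact hU3 (fun i => x i) (hU2 (fun i => x i) x (fun _ => rfl))

/-- choice of positions with few conflicts for one matrix -/
theorem count_bad {h w q z s : ℕ} (B : Fin h → Finset (Fin w)) (hz : z = 6 ^ q)
    (hs : ∑ i, (B i).card ≤ h * s) (hw : z * s ≤ w) (hw0 : 0 < w) :
    (Finset.univ.filter (fun f : Fin h → Fin w =>
      h < q * (Finset.univ.filter (fun i => f i ∈ B i)).card)).card * 2 ^ h ≤ w ^ h := by
  classical
  have h1 : ∑ f : Fin h → Fin w, ((z : ℝ)) ^ (Finset.univ.filter (fun i => f i ∈ B i)).card =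
      ∏ i, ∑ u : Fin w, (if u ∈ B i then (z : ℝ) else 1) := by
    have h2 := Finset.prod_univ_sum (fun _ : Fin h => (Finset.univ : Finset (Fin w)))
      (fun i u => if u ∈ B i then (z : ℝ) else 1)
    rw [Fintype.piFinset_univ] at h2
    rw [h2]
    apply Finset.sum_congr rfl
    intro f _
    rw [Finset.prod_ite, Finset.prod_const, Finset.prod_const_one, mul_one]
  have hw' : (0 : ℝ) < w := by exact_mod_cast hw0
  have h2 : ∀ i, ∑ u : Fin w, (if u ∈ B i then (z : ℝ) else 1) ≤
      w * Real.exp (z * (B i).card / w) := by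
    intro i
    have h3 : ∑ u : Fin w, (if u ∈ B i then (z : ℝ) else 1) ≤ z * (B i).card + w := by
      rw [Finset.sum_ite, Finset.sum_const, Finset.sum_const, nsmul_eq_mul, nsmul_eq_mul, mul_one]
      have h4 : (Finset.univ.filter (fun u => u ∈ B i)) = B i := by
        ext u
        simp
      rw [h4]
      have h5 : ((Finset.univ.filter (fun u => u ∉ B i)).card : ℝ) ≤ w := by
        have := Finset.card_filter_le (Finset.univ : Finset (Fin w)) (fun u => u ∉ B i)
        rw [Finset.card_univ, Fintype.card_fin] at this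
        exact_mod_cast this
      nlinarith
    refine h3.trans ?_
    have h6 := Real.add_one_le_exp ((z : ℝ) * (B i).card / w)
    calc (z : ℝ) * (B i).card + w = w * (z * (B i).card / w + 1) := by
          field_simp
      _ ≤ w * Real.exp (z * (B i).card / w) := mul_le_mul_of_nonneg_left h6 hw'.le
  have h3 : ∏ i, ∑ u : Fin w, (if u ∈ B i then (z : ℝ) else 1) ≤ w ^ h * 3 ^ h := by
    calc ∏ i, ∑ u : Fin w, (if u ∈ B i then (z : ℝ) else 1)
        ≤ ∏ i, (w * Real.exp (z * (B i).card / w)) := by
          apply Finset.prod_le_prod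
          · intro i _
            apply Finset.sum_nonneg
            intro u _
            split_ifs
            · positivity
            · norm_num
          · intro i _
            exact h2 i
      _ = w ^ h * Real.exp (z * ∑ i, ((B i).card : ℝ) / w) := by
          rw [Finset.prod_mul_distrib, Finset.prod_const, Finset.card_univ, Fintype.card_fin,
            ← Real.exp_sum, Finset.mul_sum]
          congr 2
          apply Finset.sum_congr rfl
          intro i _
          ring
      _ ≤ w ^ h * 3 ^ h := by
          apply mul_le_mul_of_nonneg_left _ (by positivity)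
          have h4 : (z : ℝ) * ∑ i, ((B i).card : ℝ) / w ≤ h := by
            rw [← Finset.sum_div, ← mul_div_assoc, div_le_iff₀ hw']
            have h5 : (∑ i, ((B i).card : ℝ)) ≤ h * s := by exact_mod_cast hs
            have h6 : (z : ℝ) * s ≤ w := by exact_mod_cast hw
            calc (z : ℝ) * ∑ i, ((B i).card : ℝ) ≤ z * (h * s) :=
                  mul_le_mul_of_nonneg_left h5 (by positivity)
              _ = h * (z * s) := by ring
              _ ≤ h * w := mul_le_mul_of_nonneg_left h6 (by positivity)
          calc Real.exp ((z : ℝ) * ∑ i, ((B i).card : ℝ) / w) ≤ Real.exp h := Real.exp_le_exp.2 h4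
            _ = (Real.exp 1) ^ h := by rw [← Real.exp_nat_mul, mul_one]
            _ ≤ 3 ^ h := by
                apply pow_le_pow_left₀ (Real.exp_pos 1).le
                have := Real.exp_one_lt_d9
                linarith
  have h4 : ((Finset.univ.filter (fun f : Fin h → Fin w =>
      h < q * (Finset.univ.filter (fun i => f i ∈ B i)).card)).card : ℝ) * 6 ^ h ≤
      w ^ h * 3 ^ h := by
    refine le_trans ?_ h3
    rw [← h1, ← nsmul_eq_mul, ← Finset.sum_const]
    calc ∑ _f ∈ Finset.univ.filter (fun f : Fin h → Fin w =>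
          h < q * (Finset.univ.filter (fun i => f i ∈ B i)).card), (6 : ℝ) ^ h
        ≤ ∑ f ∈ Finset.univ.filter (fun f : Fin h → Fin w =>
          h < q * (Finset.univ.filter (fun i => f i ∈ B i)).card),
            ((z : ℝ)) ^ (Finset.univ.filter (fun i => f i ∈ B i)).card := by
          apply Finset.sum_le_sum
          intro f hf
          have h5 := (Finset.mem_filter.1 hf).2
          rw [hz]
          push_cast
          rw [← pow_mul]
          exact pow_le_pow_right₀ (by norm_num) h5.le
      _ ≤ _ := by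
          apply Finset.sum_le_sum_of_subset_of_nonneg (Finset.filter_subset _ _)
          intro f _ _
          positivity
  have h5 : ((Finset.univ.filter (fun f : Fin h → Fin w =>
      h < q * (Finset.univ.filter (fun i => f i ∈ B i)).card)).card : ℝ) * 2 ^ h ≤ w ^ h := by
    have h6 : (6 : ℝ) ^ h = 2 ^ h * 3 ^ h := by
      rw [← mul_pow]
      norm_num
    rw [h6, ← mul_assoc] at h4
    exact le_of_mul_le_mul_right h4 (by positivity)
  exact_mod_cast h5

end Pool.Agent.H52DS
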