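import Pool.Agent.H52DS.Chain
import Pool.Agent.H52DS.Local

/-!
# The chain as an instance of multidimensional matching, at positions chosen by probability
-/

namespace Pool.Agent.H52DS
open Module

variable {h n e : ℕ} {V : Type}

open Classical in
/-- the chain at the positions given by an embedding; all other positions are filled trivially -/
noncomputable def instT (ι : Role h V ↪ Fin n) (step : V → V → Bool → Bool → Prop)
    (x y : Fin h → V) : Fin n → (Fin (e + 1) → Fin n) → Bool := fun a c =>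
  decide ((∃ ρ u v, ι ρ = a ∧ Role.Allowed step x y ρ u v ∧ c 0 = ι u ∧ ∀ i, i ≠ 0 → c i = ι v) ∨
    ((∀ ρ, ι ρ ≠ a) ∧ ∀ i, c i = a))

theorem instT_true (ι : Role h V ↪ Fin n) (step : V → V → Bool → Bool → Prop)
    (x y : Fin h → V) (a : Fin n) (c : Fin (e + 1) → Fin n) :
    instT ι step x y a c = true ↔
    ((∃ ρ u v, ι ρ = a ∧ Role.Allowed step x y ρ u v ∧ c 0 = ι u ∧ ∀ i, i ≠ 0 → c i = ι v) ∨
    ((∀ ρ, ι ρ ≠ a) ∧ ∀ i, c i = a)) := by
  simp only [instT, decide_eq_true_eq]

theorem instT_eq (ι : Role h V ↪ Fin n) (step : V → V → Bool → Bool → Prop)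
    (x y x' y' : Fin h → V) (ρ : Role h V)
    (H : ∀ u v, Role.Allowed step x y ρ u v ↔ Role.Allowed step x' y' ρ u v) :
    instT (e := e) ι step x y (ι ρ) = instT ι step x' y' (ι ρ) := by
  funext c
  unfold instT
  congr 1
  apply propext
  apply or_congr _ Iff.rfl
  constructor
  · rintro ⟨ρ', u, v, h1, h2, h3⟩
    have := ι.injective h1
    subst this
    exact ⟨ρ', u, v, h1, (H u v).1 h2, h3⟩
  · rintro ⟨ρ', u, v, h1, h2, h3⟩
    have := ι.injective h1
    subst this
    exact ⟨ρ', u, v, h1, (H u v).2 h2, h3⟩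

theorem instT_other (ι : Role h V ↪ Fin n) (step : V → V → Bool → Bool → Prop)
    (x y x' y' : Fin h → V) (a : Fin n) (ha : ∀ ρ, ι ρ ≠ a) :
    instT (e := e) ι step x y a = instT ι step x' y' a := by
  funext c
  unfold instT
  congr 1
  apply propext
  apply or_congr _ Iff.rfl
  constructor
  · rintro ⟨ρ', u, v, h1, h2, h3⟩
    exact absurd h1 (ha ρ')
  · rintro ⟨ρ', u, v, h1, h2, h3⟩
    exact absurd h1 (ha ρ')

theorem instT_iff [Fintype V] (he : 1 ≤ e) (ι : Role h V ↪ Fin n)
    (step : V → V → Bool → Bool → Prop) (x y : Fin h → V) :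
    HasPM (instT (e := e) ι step x y) ↔
    ∃ p q : Equiv.Perm (Role h V), ∀ a, Role.Allowed step x y a (p a) (q a) := by
  classical
  have hne : (⟨1, by omega⟩ : Fin (e + 1)) ≠ 0 := by
    intro h
    have := congrArg Fin.val h
    simp at this
  constructor
  · rintro ⟨π, hπ⟩
    have h1 : ∀ ρ, ∃ u v, Role.Allowed step x y ρ u v ∧ π 0 (ι ρ) = ι u ∧
        π ⟨1, by omega⟩ (ι ρ) = ι v := by
      intro ρ
      have h2 := (instT_true _ _ _ _ _ _).1 (hπ (ι ρ))
      rcases h2 with ⟨ρ', u, v, h3, h4, h5, h6⟩ | ⟨h3, -⟩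
      · have := ι.injective h3
        subst this
        exact ⟨u, v, h4, h5, h6 _ hne⟩
      · exact absurd rfl (h3 ρ)
    choose u v huv hu hv using h1
    have hui : Function.Injective u := by
      intro ρ ρ' hh
      apply ι.injective
      apply (π 0).injective
      rw [hu, hu, hh]
    have hvi : Function.Injective v := by
      intro ρ ρ' hh
      apply ι.injective
      apply (π ⟨1, by omega⟩).injective
      rw [hv, hv, hh]
    exact ⟨Equiv.ofBijective u (Finite.injective_iff_bijective.1 hui),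
      Equiv.ofBijective v (Finite.injective_iff_bijective.1 hvi), huv⟩
  · rintro ⟨p, q, hpq⟩
    refine ⟨fun i => if i = 0 then p.viaEmbedding ι else q.viaEmbedding ι, ?_⟩
    intro a
    rw [instT_true]
    by_cases ha : ∃ ρ, ι ρ = a
    · obtain ⟨ρ, rfl⟩ := ha
      left
      refine ⟨ρ, p ρ, q ρ, rfl, hpq ρ, ?_, ?_⟩
      · show (if (0 : Fin (e + 1)) = 0 then p.viaEmbedding ι else q.viaEmbedding ι) (ι ρ) = _
        rw [if_pos rfl, Equiv.Perm.viaEmbedding_apply]
      · intro i hi
        show (if i = 0 then p.viaEmbedding ι else q.viaEmbedding ι) (ι ρ) = _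
        rw [if_neg hi, Equiv.Perm.viaEmbedding_apply]
    · right
      refine ⟨fun ρ hρ => ha ⟨ρ, hρ⟩, ?_⟩
      intro i
      show (if i = 0 then p.viaEmbedding ι else q.viaEmbedding ι) a = a
      by_cases hi : i = 0
      · rw [if_pos hi, Equiv.Perm.viaEmbedding_apply_of_notMem _ _ _ (by
          rintro ⟨ρ, hρ⟩
          exact ha ⟨ρ, hρ⟩)]
      · rw [if_neg hi, Equiv.Perm.viaEmbedding_apply_of_notMem _ _ _ (by
          rintro ⟨ρ, hρ⟩
          exact ha ⟨ρ, hρ⟩)]

/-- the positions: the element `Y i` is placed at the candidate `f i` -/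
def place {w : ℕ} (f : Fin h → Fin w) : Role h V → (Fin h × Fin w) ⊕ Role h V
  | Role.Y i => Sum.inl (i, f i)
  | Role.E => Sum.inr Role.E
  | Role.Z i => Sum.inr (Role.Z i)
  | Role.S i v s => Sum.inr (Role.S i v s)
  | Role.L i t => Sum.inr (Role.L i t)

theorem place_injective {w : ℕ} (f : Fin h → Fin w) :
    Function.Injective (place f : Role h V → _) := by
  intro a b hab
  cases a <;> cases b <;> simp_all [place]

theorem conflicts {w N t r : ℕ} (κ : (Fin h × Fin w) ⊕ Role h V ↪ Fin n)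
    (O : Fin N → Finset (Fin n)) (ht : ∀ l, (O l).card ≤ t)
    (hr : ∀ a, (Finset.univ.filter (fun l => a ∈ O l)).card ≤ r)
    (B : Fin h → Finset (Fin w))
    (hB : ∀ i u, u ∈ B i → ∃ j l, κ (Sum.inl (i, u)) ∈ O l ∧ κ (Sum.inr (Role.Z j)) ∈ O l) :
    ∑ i, (B i).card ≤ h * (r * t) := by
  classical
  rw [← Finset.card_sigma]
  have h1 : ((Finset.univ.sigma B).image (fun s => κ (Sum.inl (s.1, s.2)))).card =
      (Finset.univ.sigma B).card := by
    apply Finset.card_image_of_injective
    rintro ⟨i, u⟩ ⟨i', u'⟩ hh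
    have := κ.injective hh
    simp only [Sum.inl.injEq, Prod.mk.injEq] at this
    obtain ⟨h2, h3⟩ := this
    subst h2
    subst h3
    rfl
  rw [← h1]
  have h2 : ((Finset.univ.sigma B).image (fun s => κ (Sum.inl (s.1, s.2)))) ⊆
      (Finset.univ : Finset (Fin h)).biUnion (fun j =>
        (Finset.univ.filter (fun l => κ (Sum.inr (Role.Z j)) ∈ O l)).biUnion (fun l => O l)) := by
    intro a ha
    obtain ⟨⟨i, u⟩, hs, rfl⟩ := Finset.mem_image.1 ha
    obtain ⟨j, l, h3, h4⟩ := hB i u (Finset.mem_sigma.1 hs).2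
    simp only [Finset.mem_biUnion, Finset.mem_filter, Finset.mem_univ, true_and]
    exact ⟨j, l, h4, h3⟩
  refine (Finset.card_le_card h2).trans ?_
  refine (Finset.card_biUnion_le_card_mul _ _ (r * t) (fun j _ => ?_)).trans ?_
  · refine (Finset.card_biUnion_le_card_mul _ _ t (fun l _ => ht l)).trans ?_
    exact Nat.mul_le_mul_right t (hr _)
  · rw [Finset.card_univ, Fintype.card_fin]

variable {K : Type*} [Field K]

theorem family {k t r w q : ℕ} [Fintype V] [DecidableEq V] (he : 1 ≤ e) (hq : 0 < q)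
    (hn : h * w + (3 + h * (2 * Fintype.card V + 4)) ≤ n) (hw : 6 ^ q * (r * t) ≤ w) (hw0 : 0 < w)
    (hk : k < 2 ^ h) (N : Fin k → ℕ)
    (A : ∀ i, (Fin n → (Fin (e + 1) → Fin n) → Bool) → Matrix (Fin (N i)) (Fin (N i)) K)
    (hA : ∀ i, LocalRows t r (A i)) (hV : 0 < Fintype.card V)
    (step : V → V → Bool → Bool → Prop) :
    ∃ T : (Fin h → V) → (Fin h → V) → Fin n → (Fin (e + 1) → Fin n) → Bool,
      (∀ x y, HasPM (T x y) ↔ ∃ s : Fin (h + 1) → Bool, s 0 = false ∧ s (Fin.last h) = true ∧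
        ∀ i, step (x i) (y i) (s i.castSucc) (s i.succ)) ∧
      ∀ i, ∃ U : Submodule K ((Fin h → V) → K),
        finrank K U ≤ Fintype.card V ^ (h / q) * (r * h + r * h).choose (r * h) ∧
        ∀ x, (fun y => (A i (T x y)).det) ∈ U := by
  classical
  have hcard : Fintype.card ((Fin h × Fin w) ⊕ Role h V) ≤ Fintype.card (Fin n) := by
    rw [Fintype.card_sum, Fintype.card_prod, Fintype.card_fin, Fintype.card_fin,
      Fintype.card_fin, Role.card]
    exact hn
  obtain ⟨κ⟩ := Function.Embedding.nonempty_of_card_le hcard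
  choose O hO1 hO2 hO3 using hA
  let B : ∀ i : Fin k, Fin h → Finset (Fin w) := fun i i' =>
    Finset.univ.filter (fun u => ∃ j l, κ (Sum.inl (i', u)) ∈ O i l ∧
      κ (Sum.inr (Role.Z j)) ∈ O i l)
  have hB : ∀ i, ∑ i', (B i i').card ≤ h * (r * t) := by
    intro i
    apply conflicts κ (O i) (hO1 i) (hO2 i)
    intro i' u hu
    exact (Finset.mem_filter.1 hu).2
  let Bad : Fin k → Finset (Fin h → Fin w) := fun i => Finset.univ.filter (fun f : Fin h → Fin w =>
    h < q * (Finset.univ.filter (fun i' => f i' ∈ B i i')).card)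
  have hBad : ∀ i, (Bad i).card * 2 ^ h ≤ w ^ h :=
    fun i => count_bad (B i) rfl (hB i) hw hw0
  have hex : ∃ f : Fin h → Fin w, ∀ i, f ∉ Bad i := by
    by_contra hcon
    push Not at hcon
    have h1 : (Finset.univ : Finset (Fin h → Fin w)) ⊆ Finset.univ.biUnion Bad := by
      intro f _
      obtain ⟨i, hi⟩ := hcon f
      exact Finset.mem_biUnion.2 ⟨i, Finset.mem_univ _, hi⟩
    have h2 := Finset.card_le_card h1
    rw [Finset.card_univ, Fintype.card_fun, Fintype.card_fin, Fintype.card_fin] at h2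
    have h3 : (Finset.univ.biUnion Bad).card * 2 ^ h ≤ k * w ^ h := by
      calc (Finset.univ.biUnion Bad).card * 2 ^ h ≤ (∑ i, (Bad i).card) * 2 ^ h :=
            Nat.mul_le_mul_right _ Finset.card_biUnion_le
        _ = ∑ i, (Bad i).card * 2 ^ h := Finset.sum_mul _ _ _
        _ ≤ ∑ _i : Fin k, w ^ h := Finset.sum_le_sum (fun i _ => hBad i)
        _ = k * w ^ h := by simp
    have h4 : w ^ h * 2 ^ h ≤ k * w ^ h := (Nat.mul_le_mul_right _ h2).trans h3
    have h5 : 0 < w ^ h := pow_pos hw0 h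
    have h6 : w ^ h * 2 ^ h ≤ w ^ h * k := by rwa [mul_comm k] at h4
    exact absurd (Nat.le_of_mul_le_mul_left h6 h5) (not_le.2 hk)
  obtain ⟨f, hf⟩ := hex
  let ι : Role h V ↪ Fin n := ⟨fun ρ => κ (place f ρ), κ.injective.comp (place_injective f)⟩
  have hιY : ∀ i, ι (Role.Y i) = κ (Sum.inl (i, f i)) := fun _ => rfl
  have hιZ : ∀ i, ι (Role.Z i) = κ (Sum.inr (Role.Z i)) := fun _ => rfl
  refine ⟨instT ι step, ?_, ?_⟩
  · intro x y
    rw [instT_iff he, Role.chain_iff]
  · intro i
    obtain ⟨U, hU1, hU2⟩ := rank_local (K := K) (A i) (O i) (hO2 i) (hO3 i)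
      (instT ι step) (fun i' => ι (Role.Y i')) (fun j => ι (Role.Z j))
      (by
        intro i' x x' y y' hx
        apply instT_eq
        intro u v
        simp only [Role.Allowed, hx])
      (by
        intro j x x' y
        apply instT_eq
        intro u v
        simp only [Role.Allowed])
      (by
        intro c hc1 hc2 x x' y y'
        by_cases hc : ∃ ρ, ι ρ = c
        · obtain ⟨ρ, rfl⟩ := hc
          apply instT_eq
          intro u v
          cases ρ with
          | E => simp only [Role.Allowed]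
          | Y i' => exact absurd rfl (hc1 i')
          | Z j => exact absurd rfl (hc2 j)
          | S i' v' s' => simp only [Role.Allowed]
          | L i' t' => simp only [Role.Allowed]
        · apply instT_other
          intro ρ hρ
          exact hc ⟨ρ, hρ⟩)
      (Finset.univ.filter (fun i' => f i' ∈ B i i'))
      (by
        intro i' j l h1 h2
        simp only [Finset.mem_filter, Finset.mem_univ, true_and, B]
        exact ⟨j, l, h1, h2⟩)
    refine ⟨U, hU1.trans ?_, hU2⟩
    apply Nat.mul_le_mul_right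
    apply Nat.pow_le_pow_right hV
    have h1 : ¬ h < q * (Finset.univ.filter (fun i' => f i' ∈ B i i')).card := by
      intro h2
      exact hf i (Finset.mem_filter.2 ⟨Finset.mem_univ _, h2⟩)
    rw [Nat.le_div_iff_mul_le hq]
    rw [mul_comm]
    omega

end Pool.Agent.H52DS
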