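import Pool.Agent.H52DS.Local

/-!
# Row-wise matrices and matrices with local rows, `t = 1`
-/

namespace Pool.Agent.H52DS

theorem RowWise.local {S K : Type*} {n N r : ℕ} {A : (Fin n → S) → Matrix (Fin N) (Fin N) K}
    (h : RowWise r A) : LocalRows 1 r A := by
  classical
  obtain ⟨o, ho, h1⟩ := h
  refine ⟨fun l => (o l).toFinset, ?_, ?_, ?_⟩
  · intro l
    show (o l).toFinset.card ≤ 1
    cases hl : o l with
    | none => simp
    | some a => simp
  · intro a
    refine le_trans (le_of_eq ?_) (ho a)
    congr 1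
    ext l
    simp only [Finset.mem_filter, Finset.mem_univ, true_and, Option.mem_toFinset, Option.mem_def]
  · intro l T T' h2
    apply h1
    intro a ha
    apply h2
    rw [Option.mem_toFinset]
    exact ha

theorem LocalRows.rowWise {S K : Type*} {n N r : ℕ} {A : (Fin n → S) → Matrix (Fin N) (Fin N) K}
    (h : LocalRows 1 r A) : RowWise r A := by
  classical
  obtain ⟨O, hO1, hO2, hO3⟩ := h
  have key : ∀ l, ∃ o : Option (Fin n), (∀ a, o = some a → a ∈ O l) ∧ ∀ a, a ∈ O l → o = some a := by
    intro l
    by_cases h1 : ∃ a, a ∈ O l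
    · obtain ⟨a, ha⟩ := h1
      refine ⟨some a, ?_, ?_⟩
      · intro b hb
        rw [← Option.some.inj hb]
        exact ha
      · intro b hb
        rw [Finset.card_le_one.1 (hO1 l) _ ha _ hb]
    · refine ⟨none, ?_, ?_⟩
      · intro b hb
        exact absurd hb (by simp)
      · intro b hb
        exact absurd ⟨b, hb⟩ h1
  choose o ho1 ho2 using key
  refine ⟨o, ?_, ?_⟩
  · intro a
    refine le_trans (Finset.card_le_card ?_) (hO2 a)
    intro l hl
    rw [Finset.mem_filter] at hl ⊢
    exact ⟨Finset.mem_univ _, ho1 l a hl.2⟩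
  · intro l T T' h1
    apply hO3
    intro a ha
    exact h1 a (ho2 l a ha)

end Pool.Agent.H52DS
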