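import Mathlib

/-!
# Definitions: multidimensional matching and matrices with local rows
-/

namespace Pool.Agent.H52DS

/-- `e + 1` dimensional matching: the instance `T` has a perfect matching if there are permutations
`π i` of `Fin n` such that all the tuples `(a, π 0 a, …, π (e - 1) a)` are allowed by `T`. -/
def HasPM {n e : ℕ} (T : Fin n → (Fin e → Fin n) → Bool) : Prop :=
  ∃ π : Fin e → Equiv.Perm (Fin n), ∀ a, T a (fun i => π i a) = true

/-- A matrix function `A` of instances `T : Fin n → S` is local with parameters `t, r` if every row of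
`A T` depends on at most `t` of the values `T a`, and every value `T a` is used by at most `r` rows. -/
def LocalRows {S K : Type*} {n N : ℕ} (t r : ℕ) (A : (Fin n → S) → Matrix (Fin N) (Fin N) K) : Prop :=
  ∃ O : Fin N → Finset (Fin n), (∀ l, (O l).card ≤ t) ∧
    (∀ a, (Finset.univ.filter (fun l => a ∈ O l)).card ≤ r) ∧
    ∀ l T T', (∀ a ∈ O l, T a = T' a) → A T l = A T' l

/-- the constant -/
def cst (t r D : ℕ) : ℕ :=
  (6 ^ (4 * (D + 1)) * (r * t) + 1) + (2 * 2 ^ (4 * (D + 1) * (1 + 2 * r) + 1) + 4) + 3

end Pool.Agent.H52DS
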