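import Pool.Agent.H52DS.Defs
import Pool.Agent.H52DS.Lower

/-!
# The gadget for multidimensional matching
-/

namespace Pool.Agent.H52DS
open Module

variable {K : Type*} [Field K]

theorem card_Y {n h h' : ℕ} (hn : h + h' ≤ n) :
    (Finset.univ.filter (fun a : Fin n => a.val < h)).card = h := by
  have := Fin.card_filter_val_lt (n := n) (m := h)
  omega

theorem card_Z {n h h' : ℕ} (hn : h + h' ≤ n) :
    (Finset.univ.filter (fun a : Fin n => h ≤ a.val ∧ a.val < h + h')).card = h' := by
  have h1 := Fin.card_filter_val_lt (n := n) (m := h + h')
  have h2 := card_Y (n := n) (h := h) (h' := h') hn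
  have h3 : (Finset.univ.filter (fun a : Fin n => a.val < h + h')) =
      (Finset.univ.filter (fun a : Fin n => a.val < h)) ∪
      (Finset.univ.filter (fun a : Fin n => h ≤ a.val ∧ a.val < h + h')) := by
    ext a
    simp only [Finset.mem_filter, Finset.mem_univ, true_and, Finset.mem_union]
    omega
  rw [h3, Finset.card_union_of_disjoint, h2] at h1
  · omega
  · rw [Finset.disjoint_left]
    intro a
    simp only [Finset.mem_filter, Finset.mem_univ, true_and]
    omega

/-- the families of set systems used in the gadget -/
structure Fam (n e h h' : ℕ) {P : Type*} (S : P → Fin e → Finset (Fin n))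
    (U : P → Finset (Fin n)) : Prop where
  hn : h + h' ≤ n
  hS : ∀ p i, (S p i).card = h
  hU : ∀ p, (U p).card = h + h'
  hsub : ∀ p i, S p i ⊆ U p
  hcov : ∀ p, U p = Finset.univ ∨
      ((∀ x ∈ U p, ∃ i, x ∈ S p i) ∧ (∀ x ∈ U p, ∃ i, x ∉ S p i))
  hinj : ∀ p q, (∀ i, S p i = S q i) → U p = U q → p = q

theorem gadget {P : Type*} [Fintype P] {n e h h' : ℕ} (S : P → Fin e → Finset (Fin n))
    (U : P → Finset (Fin n)) (hfam : Fam n e h h' S U) :
    ∃ T : P → P → Fin n → (Fin e → Fin n) → Bool, (∀ p q, HasPM (T p q) ↔ p = q) ∧
      ∀ (r N : ℕ) (A : (Fin n → (Fin e → Fin n) → Bool) → Matrix (Fin N) (Fin N) K),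
        RowWise r A → ∃ V : Submodule K (P → K), FiniteDimensional K V ∧
          finrank K V ≤ (r * (h + h')).choose (r * h) ∧
          ∀ p, (fun q => (A (T p q)).det) ∈ V := by
  obtain ⟨hn, hS, hU, hsub, hcov, hinj⟩ := hfam
  classical
  have hc : ∀ p i, (U p \ S p i).card = h' := by
    intro p i
    rw [Finset.card_sdiff_of_subset (hsub p i), hU, hS]
    omega
  let T : P → P → Fin n → (Fin e → Fin n) → Bool := fun p q a c =>
    if h1 : a.val < h then decide (∀ i, c i = (S p i).orderEmbOfFin (hS p i) ⟨a.val, h1⟩)
    else if h2 : a.val < h + h' then
      decide (∀ i, c i = (U q \ S q i).orderEmbOfFin (hc q i) ⟨a.val - h, by omega⟩)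
    else decide (∀ i j, c i = c j)
  have hT1 : ∀ p q (a : Fin n) (h1 : a.val < h) c, T p q a c = true ↔
      ∀ i, c i = (S p i).orderEmbOfFin (hS p i) ⟨a.val, h1⟩ := by
    intro p q a h1 c
    simp only [T, h1, dite_true, decide_eq_true_eq]
  have hT2 : ∀ p q (a : Fin n) (h1 : ¬ a.val < h) (h2 : a.val < h + h') c, T p q a c = true ↔
      ∀ i, c i = (U q \ S q i).orderEmbOfFin (hc q i) ⟨a.val - h, by omega⟩ := by
    intro p q a h1 h2 c
    simp only [T, h1, h2, dite_true, dite_false, decide_eq_true_eq]
  have hT3 : ∀ p q (a : Fin n) (h2 : ¬ a.val < h + h') c, T p q a c = true ↔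
      ∀ i j, c i = c j := by
    intro p q a h2 c
    have h1 : ¬ a.val < h := by omega
    simp only [T, h1, h2, dite_false, decide_eq_true_eq]
  have hiff : ∀ p q, HasPM (T p q) ↔ p = q := by
    intro p q
    constructor
    · rintro ⟨π, hπ⟩
      have hY : ∀ i x, x ∈ S p i ↔ ∃ a : Fin n, a.val < h ∧ π i a = x := by
        intro i x
        constructor
        · intro hx
          have : x ∈ Set.range ((S p i).orderEmbOfFin (hS p i)) := by
            rw [Finset.range_orderEmbOfFin]
            exact hx
          obtain ⟨j, rfl⟩ := this
          refine ⟨⟨j.val, by omega⟩, j.2, ?_⟩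
          exact (hT1 p q ⟨j.val, by omega⟩ j.2 _).1 (hπ _) i
        · rintro ⟨a, ha, rfl⟩
          rw [(hT1 p q a ha _).1 (hπ a) i]
          exact Finset.orderEmbOfFin_mem _ _ _
      have hZ : ∀ i x, x ∈ U q \ S q i ↔ ∃ a : Fin n, (¬ a.val < h) ∧ a.val < h + h' ∧ π i a = x := by
        intro i x
        constructor
        · intro hx
          have : x ∈ Set.range ((U q \ S q i).orderEmbOfFin (hc q i)) := by
            rw [Finset.range_orderEmbOfFin]
            exact hx
          obtain ⟨j, rfl⟩ := this
          have hj := j.2
          have h1 : ¬ (h + j.val < h) := by omega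
          have h2 : h + j.val < h + h' := by omega
          refine ⟨⟨h + j.val, by omega⟩, h1, h2, ?_⟩
          have h3 := (hT2 p q ⟨h + j.val, by omega⟩ h1 h2 _).1 (hπ _) i
          rw [h3]
          congr 1
          ext
          simp
        · rintro ⟨a, ha1, ha2, rfl⟩
          rw [(hT2 p q a ha1 ha2 _).1 (hπ a) i]
          exact Finset.orderEmbOfFin_mem _ _ _
      have hdisj : ∀ i x, x ∈ S p i → x ∈ U q → x ∈ S q i := by
        intro i x h1 h2
        by_contra h3
        obtain ⟨a, ha, hax⟩ := (hY i x).1 h1
        obtain ⟨b, hb1, hb2, hbx⟩ := (hZ i x).1 (Finset.mem_sdiff.2 ⟨h2, h3⟩)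
        have : a = b := (π i).injective (hax.trans hbx.symm)
        subst this
        exact hb1 ha
      have hinv : ∀ i j x, x ∈ S p i ∪ (U q \ S q i) → x ∈ S p j ∪ (U q \ S q j) := by
        intro i j x hx
        by_contra hx2
        let a := (π j).symm x
        have ha : π j a = x := by simp [a]
        have ha3 : ¬ a.val < h + h' := by
          intro ha4
          apply hx2
          rw [Finset.mem_union]
          by_cases h1 : a.val < h
          · left
            exact (hY j x).2 ⟨a, h1, ha⟩
          · right
            exact (hZ j x).2 ⟨a, h1, ha4, ha⟩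
        have ha5 : π i a = x := by
          rw [← ha]
          exact (hT3 p q a ha3 _).1 (hπ a) i j
        rw [Finset.mem_union] at hx
        rcases hx with hx | hx
        · obtain ⟨b, hb, hbx⟩ := (hY i x).1 hx
          have : a = b := (π i).injective (ha5.trans hbx.symm)
          subst this
          omega
        · obtain ⟨b, hb1, hb2, hbx⟩ := (hZ i x).1 hx
          have : a = b := (π i).injective (ha5.trans hbx.symm)
          subst this
          omega
      have hUU : U p = U q := by
        by_cases hnn : h + h' = n
        · have h1 : ∀ p, U p = Finset.univ := by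
            intro p
            apply Finset.eq_univ_of_card
            rw [hU p, hnn, Fintype.card_fin]
          rw [h1 p, h1 q]
        · have h1 : ∀ p, (∀ x ∈ U p, ∃ i, x ∈ S p i) ∧ (∀ x ∈ U p, ∃ i, x ∉ S p i) := by
            intro p
            rcases hcov p with h2 | h2
            · exfalso
              apply hnn
              rw [← hU p, h2, Finset.card_univ, Fintype.card_fin]
            · exact h2
          have hVc : ∀ i, (S p i ∪ (U q \ S q i)).card ≤ h + h' := by
            intro i
            refine (Finset.card_union_le _ _).trans ?_
            rw [hS, hc]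
          have hVp : ∀ i, U p = S p i ∪ (U q \ S q i) := by
            intro i
            apply Finset.eq_of_subset_of_card_le
            · intro x hx
              obtain ⟨j, hj⟩ := (h1 p).1 x hx
              exact hinv j i x (Finset.mem_union_left _ hj)
            · rw [hU]
              exact hVc i
          have hVq : ∀ i, U q = S p i ∪ (U q \ S q i) := by
            intro i
            apply Finset.eq_of_subset_of_card_le
            · intro x hx
              obtain ⟨j, hj⟩ := (h1 q).2 x hx
              exact hinv j i x (Finset.mem_union_right _ (Finset.mem_sdiff.2 ⟨hx, hj⟩))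
            · rw [hU]
              exact hVc i
          ext x
          constructor
          · intro hx
            obtain ⟨i, _⟩ := (h1 p).1 x hx
            rw [hVq i, ← hVp i]
            exact hx
          · intro hx
            obtain ⟨i, _⟩ := (h1 q).1 x hx
            rw [hVp i, ← hVq i]
            exact hx
      apply hinj p q _ hUU
      intro i
      apply Finset.eq_of_subset_of_card_le
      · intro x hx
        exact hdisj i x hx (hUU ▸ hsub p i hx)
      · rw [hS, hS]
    · rintro rfl
      have hcc : ((U p)ᶜ).card = n - (h + h') := by
        rw [Finset.card_compl, hU, Fintype.card_fin]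
      let f : Fin e → Fin n → Fin n := fun i a =>
        if h1 : a.val < h then (S p i).orderEmbOfFin (hS p i) ⟨a.val, h1⟩
        else if h2 : a.val < h + h' then
          (U p \ S p i).orderEmbOfFin (hc p i) ⟨a.val - h, by omega⟩
        else ((U p)ᶜ).orderEmbOfFin hcc ⟨a.val - (h + h'), by omega⟩
      have hf : ∀ i, Function.Injective (f i) := by
        intro i a b hab
        by_cases a1 : a.val < h
        · have fa : f i a = (S p i).orderEmbOfFin (hS p i) ⟨a.val, a1⟩ := by
            simp only [f, a1, dite_true]
          have ma : f i a ∈ S p i := by
            rw [fa]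
            exact Finset.orderEmbOfFin_mem _ _ _
          by_cases b1 : b.val < h
          · have fb : f i b = (S p i).orderEmbOfFin (hS p i) ⟨b.val, b1⟩ := by
              simp only [f, b1, dite_true]
            rw [fa, fb] at hab
            have := (RelEmbedding.injective _ hab)
            simp only [Fin.mk.injEq] at this
            exact Fin.ext this
          · by_cases b2 : b.val < h + h'
            · exfalso
              have fb : f i b = (U p \ S p i).orderEmbOfFin (hc p i) ⟨b.val - h, by omega⟩ := by
                simp only [f, b1, b2, dite_true, dite_false]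
              have mb : f i b ∈ U p \ S p i := by
                rw [fb]
                exact Finset.orderEmbOfFin_mem _ _ _
              rw [← hab] at mb
              exact (Finset.mem_sdiff.1 mb).2 ma
            · exfalso
              have fb : f i b = ((U p)ᶜ).orderEmbOfFin hcc ⟨b.val - (h + h'), by omega⟩ := by
                simp only [f, b1, b2, dite_false]
              have mb : f i b ∈ (U p)ᶜ := by
                rw [fb]
                exact Finset.orderEmbOfFin_mem _ _ _
              rw [← hab] at mb
              exact (Finset.mem_compl.1 mb) (hsub p i ma)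
        · by_cases a2 : a.val < h + h'
          · have fa : f i a = (U p \ S p i).orderEmbOfFin (hc p i) ⟨a.val - h, by omega⟩ := by
              simp only [f, a1, a2, dite_true, dite_false]
            have ma : f i a ∈ U p \ S p i := by
              rw [fa]
              exact Finset.orderEmbOfFin_mem _ _ _
            by_cases b1 : b.val < h
            · exfalso
              have fb : f i b = (S p i).orderEmbOfFin (hS p i) ⟨b.val, b1⟩ := by
                simp only [f, b1, dite_true]
              have mb : f i b ∈ S p i := by
                rw [fb]
                exact Finset.orderEmbOfFin_mem _ _ _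
              rw [← hab] at mb
              exact (Finset.mem_sdiff.1 ma).2 mb
            · by_cases b2 : b.val < h + h'
              · have fb : f i b = (U p \ S p i).orderEmbOfFin (hc p i) ⟨b.val - h, by omega⟩ := by
                  simp only [f, b1, b2, dite_true, dite_false]
                rw [fa, fb] at hab
                have := (RelEmbedding.injective _ hab)
                simp only [Fin.mk.injEq] at this
                apply Fin.ext
                omega
              · exfalso
                have fb : f i b = ((U p)ᶜ).orderEmbOfFin hcc ⟨b.val - (h + h'), by omega⟩ := by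
                  simp only [f, b1, b2, dite_false]
                have mb : f i b ∈ (U p)ᶜ := by
                  rw [fb]
                  exact Finset.orderEmbOfFin_mem _ _ _
                rw [← hab] at mb
                exact (Finset.mem_compl.1 mb) (Finset.mem_sdiff.1 ma).1
          · have fa : f i a = ((U p)ᶜ).orderEmbOfFin hcc ⟨a.val - (h + h'), by omega⟩ := by
              simp only [f, a1, a2, dite_false]
            have ma : f i a ∈ (U p)ᶜ := by
              rw [fa]
              exact Finset.orderEmbOfFin_mem _ _ _
            by_cases b1 : b.val < h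
            · exfalso
              have fb : f i b = (S p i).orderEmbOfFin (hS p i) ⟨b.val, b1⟩ := by
                simp only [f, b1, dite_true]
              have mb : f i b ∈ S p i := by
                rw [fb]
                exact Finset.orderEmbOfFin_mem _ _ _
              rw [← hab] at mb
              exact (Finset.mem_compl.1 ma) (hsub p i mb)
            · by_cases b2 : b.val < h + h'
              · exfalso
                have fb : f i b = (U p \ S p i).orderEmbOfFin (hc p i) ⟨b.val - h, by omega⟩ := by
                  simp only [f, b1, b2, dite_true, dite_false]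
                have mb : f i b ∈ U p \ S p i := by
                  rw [fb]
                  exact Finset.orderEmbOfFin_mem _ _ _
                rw [← hab] at mb
                exact (Finset.mem_compl.1 ma) (Finset.mem_sdiff.1 mb).1
              · have fb : f i b = ((U p)ᶜ).orderEmbOfFin hcc ⟨b.val - (h + h'), by omega⟩ := by
                  simp only [f, b1, b2, dite_false]
                rw [fa, fb] at hab
                have := (RelEmbedding.injective _ hab)
                simp only [Fin.mk.injEq] at this
                apply Fin.ext
                omega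
      refine ⟨fun i => Equiv.ofBijective (f i) (Finite.injective_iff_bijective.1 (hf i)), ?_⟩
      intro a
      by_cases a1 : a.val < h
      · rw [hT1 p p a a1]
        intro i
        simp only [Equiv.ofBijective_apply, f, a1, dite_true]
      · by_cases a2 : a.val < h + h'
        · rw [hT2 p p a a1 a2]
          intro i
          simp only [Equiv.ofBijective_apply, f, a1, a2, dite_true, dite_false]
        · rw [hT3 p p a a2]
          intro i j
          simp only [Equiv.ofBijective_apply, f, a1, a2, dite_false]
  refine ⟨T, hiff, fun r N A hA => ?_⟩
  have hfin := rank_rowwise A hA T (Finset.univ.filter (fun a : Fin n => a.val < h))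
    (Finset.univ.filter (fun a : Fin n => h ≤ a.val ∧ a.val < h + h'))
    (by
      rw [Finset.disjoint_left]
      intro a
      simp only [Finset.mem_filter, Finset.mem_univ, true_and]
      omega)
    (by
      intro a ha p q q'
      simp only [Finset.mem_filter, Finset.mem_univ, true_and] at ha
      funext c
      simp only [T, ha, dite_true])
    (by
      intro a ha p p' q
      simp only [Finset.mem_filter, Finset.mem_univ, true_and] at ha
      have h1 : ¬ a.val < h := by omega
      funext c
      simp only [T, h1, ha.2, dite_true, dite_false])
    (by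
      intro a ha1 ha2 p p' q q'
      simp only [Finset.mem_filter, Finset.mem_univ, true_and] at ha1 ha2
      have h2 : ¬ a.val < h + h' := by omega
      funext c
      simp only [T, ha1, h2, dite_false])
  rwa [card_Y hn, card_Z hn] at hfin

/-- tests by a linear subspace -/
theorem lower_linear {P : Type*} [Fintype P] {n e h h' k r : ℕ} (S : P → Fin e → Finset (Fin n))
    (U : P → Finset (Fin n)) (hfam : Fam n e h h' S U) (N : Fin k → ℕ)
    (A : ∀ i, (Fin n → (Fin e → Fin n) → Bool) → Matrix (Fin (N i)) (Fin (N i)) K)
    (hA : ∀ i, RowWise r (A i)) (Λ : Submodule K (Fin k → K))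
    (hdec : ∀ T, HasPM T ↔ (fun i => (A i T).det) ∉ Λ) :
    Fintype.card P ≤ k * (r * (h + h')).choose (r * h) := by
  obtain ⟨T, hT, hR⟩ := gadget (K := K) S U hfam
  choose V hV1 hV2 hV3 using fun i => hR r (N i) (A i) (hA i)
  have h1 := card_le_of_subspace V hV1 (fun i p q => (A i (T p q)).det) hV3 Λ
    (by
      intro p q
      rw [← hdec, hT])
  refine h1.trans ?_
  refine (Finset.sum_le_card_nsmul Finset.univ _ _ (fun i _ => hV2 i)).trans ?_
  simp

/-- tests by polynomials of degree at most `D` -/
theorem lower_poly {P : Type*} [Fintype P] {n e h h' k r D : ℕ} (S : P → Fin e → Finset (Fin n))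
    (U : P → Finset (Fin n)) (hfam : Fam n e h h' S U) (N : Fin k → ℕ)
    (A : ∀ i, (Fin n → (Fin e → Fin n) → Bool) → Matrix (Fin (N i)) (Fin (N i)) K)
    (hA : ∀ i, RowWise r (A i)) (Z : Set (MvPolynomial (Fin k) K))
    (hZ : ∀ f ∈ Z, f.totalDegree ≤ D)
    (hdec : ∀ T, HasPM T ↔ ∃ f ∈ Z, MvPolynomial.eval (fun i => (A i T).det) f ≠ 0) :
    Fintype.card P ≤ (k + D).choose D * (r * (h + h')).choose (r * h) ^ D := by
  obtain ⟨T, hT, hR⟩ := gadget (K := K) S U hfam
  choose V hV1 hV2 hV3 using fun i => hR r (N i) (A i) (hA i)
  exact card_le_of_poly (Nat.choose_pos (Nat.mul_le_mul_left r (by omega))) V hV2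
    (fun i p q => (A i (T p q)).det) hV3 Z hZ
    (by
      intro p q
      rw [← hdec, hT])

end Pool.Agent.H52DS
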