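import Mathlib

/-!
# Determinants with few rows depending on a parameter have low rank

Let `M p q` be square matrices such that every row depends only on `p`, or only on `q`, or is
constant. If `a` rows depend on `p` and `b` rows depend on `q` then the matrix `det (M p q)` (with the
rows `p` and the columns `q`) has rank at most `(a + b).choose a`.
-/

namespace Pool.Agent.H52DS
open Module

variable {K : Type*} [Field K] {N : ℕ}

/-- the determinant as a function of the rows in `R` -/
noncomputable def fixRows (R : Finset (Fin N)) (w : Fin N → Fin N → K) :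
    (Fin N → K) [⋀^Fin R.card]→ₗ[K] K where
  toFun v := Matrix.det
    (Matrix.of fun l => if h : l ∈ R then v (R.equivFin ⟨l, h⟩) else w l)
  map_update_add' := by
    intro _ v i x y
    have key : ∀ z : Fin N → K,
        (Matrix.of fun l => if h : l ∈ R then Function.update v i z (R.equivFin ⟨l, h⟩) else w l) =
        Matrix.updateRow (Matrix.of fun l => if h : l ∈ R then v (R.equivFin ⟨l, h⟩) else w l)
          (R.equivFin.symm i).1 z := by
      intro z
      ext l j
      by_cases hl : l = (R.equivFin.symm i).1
      · subst hl
        simp [Matrix.updateRow_self]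
      · rw [Matrix.updateRow_ne hl]
        simp only [Matrix.of_apply]
        by_cases hR : l ∈ R
        · have : R.equivFin ⟨l, hR⟩ ≠ i := by
            intro h
            apply hl
            rw [← h]
            simp
          simp [hR, Function.update_of_ne this]
        · simp [hR]
    have inst : ∀ a b : Fin R.card, Decidable (a = b) := fun a b => inferInstance
    convert Matrix.det_updateRow_add
      (Matrix.of fun l => if h : l ∈ R then v (R.equivFin ⟨l, h⟩) else w l)
      (R.equivFin.symm i).1 x y using 2
    · rw [← key]
    · rw [← key]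
    · rw [← key]
  map_update_smul' := by
    intro _ v i c x
    have key : ∀ z : Fin N → K,
        (Matrix.of fun l => if h : l ∈ R then Function.update v i z (R.equivFin ⟨l, h⟩) else w l) =
        Matrix.updateRow (Matrix.of fun l => if h : l ∈ R then v (R.equivFin ⟨l, h⟩) else w l)
          (R.equivFin.symm i).1 z := by
      intro z
      ext l j
      by_cases hl : l = (R.equivFin.symm i).1
      · subst hl
        simp [Matrix.updateRow_self]
      · rw [Matrix.updateRow_ne hl]
        simp only [Matrix.of_apply]
        by_cases hR : l ∈ R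
        · have : R.equivFin ⟨l, hR⟩ ≠ i := by
            intro h
            apply hl
            rw [← h]
            simp
          simp [hR, Function.update_of_ne this]
        · simp [hR]
    convert Matrix.det_updateRow_smul
      (Matrix.of fun l => if h : l ∈ R then v (R.equivFin ⟨l, h⟩) else w l)
      (R.equivFin.symm i).1 c x using 2
    · rw [← key]
    · rw [← key, smul_eq_mul]
  map_eq_zero_of_eq' := by
    intro v i j hv hij
    have hne : (R.equivFin.symm i).1 ≠ (R.equivFin.symm j).1 := by
      intro h
      exact hij (R.equivFin.symm.injective (Subtype.ext h))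
    apply Matrix.det_zero_of_row_eq hne
    ext t
    simp [hv]

theorem fixRows_apply (R : Finset (Fin N)) (w : Fin N → Fin N → K) (v : Fin R.card → Fin N → K) :
    fixRows R w v = Matrix.det
      (Matrix.of fun l => if h : l ∈ R then v (R.equivFin ⟨l, h⟩) else w l) := rfl

/-- a multilinear map which vanishes if one argument is in `W` is invariant under `W` -/
theorem invariant_of_vanish {V : Type*} [AddCommGroup V] [Module K V] {a : ℕ}
    (f : V [⋀^Fin a]→ₗ[K] K) (W : Submodule K V)
    (hf : ∀ (v : Fin a → V) (i : Fin a) (x : V), x ∈ W → f (Function.update v i x) = 0)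
    (v v' : Fin a → V) (h : ∀ i, v' i - v i ∈ W) : f v' = f v := by
  have key : ∀ s : Finset (Fin a), f (s.piecewise v' v) = f v := by
    intro s
    induction s using Finset.induction_on with
    | empty => simp
    | insert i s hi ih =>
      have h1 : (insert i s).piecewise v' v = Function.update (s.piecewise v' v) i (v' i) := by
        rw [Finset.piecewise_insert]
      rw [h1]
      have h2 : v' i = v i + (v' i - v i) := by abel
      rw [h2, f.map_update_add, hf _ _ _ (h i), add_zero]
      have h3 : Function.update (s.piecewise v' v) i (v i) = s.piecewise v' v := by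
        apply Function.update_eq_self_iff.2
        simp [hi]
      rw [h3, ih]
  have := key Finset.univ
  simpa using this

theorem rank_bound {P Q : Type*} (R1 R2 : Finset (Fin N)) (hd : Disjoint R1 R2)
    (M : P → Q → Matrix (Fin N) (Fin N) K)
    (h1 : ∀ l ∈ R1, ∀ p q q', M p q l = M p q' l)
    (h2 : ∀ l ∈ R2, ∀ p p' q, M p q l = M p' q l)
    (h0 : ∀ l, l ∉ R1 → l ∉ R2 → ∀ p p' q q', M p q l = M p' q' l) :
    ∃ U : Submodule K (Q → K), FiniteDimensional K U ∧
      finrank K U ≤ (R1.card + R2.card).choose R1.card ∧
      ∀ p, (fun q => (M p q).det) ∈ U := by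
  classical
  rcases isEmpty_or_nonempty P with hP | ⟨⟨p0⟩⟩
  · exact ⟨⊥, inferInstance, by simp, fun p => hP.elim p⟩
  rcases isEmpty_or_nonempty Q with hQ | ⟨⟨q0⟩⟩
  · refine ⟨⊥, inferInstance, by simp, fun p => ?_⟩
    rw [Submodule.mem_bot]
    ext q
    exact hQ.elim q
  let R0 : Finset (Fin N) := (R1 ∪ R2)ᶜ
  let c : R0 → (Fin N → K) := fun l => M p0 q0 l.1
  by_cases hli : LinearIndependent K c
  swap
  · refine ⟨⊥, inferInstance, by simp, fun p => ?_⟩
    rw [Submodule.mem_bot]
    ext q
    by_contra hdet
    apply hli
    have hrow : LinearIndependent K (M p q).row := by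
      apply Matrix.linearIndependent_rows_of_det_ne_zero
      exact hdet
    have hcomp := hrow.comp (fun l : R0 => l.1) Subtype.val_injective
    convert hcomp using 1
    ext l j
    have hl := l.2
    simp only [R0, Finset.mem_compl, Finset.mem_union, not_or] at hl
    show M p0 q0 l.1 j = M p q l.1 j
    rw [h0 l.1 hl.1 hl.2 p0 p q0 q]
  let W0 : Submodule K (Fin N → K) := Submodule.span K (Set.range c)
  have hW0 : finrank K W0 = R0.card := by
    have := finrank_span_eq_card hli
    simpa using this
  have hquot : finrank K ((Fin N → K) ⧸ W0) = R1.card + R2.card := by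
    have e1 := Submodule.finrank_quotient_add_finrank W0
    rw [hW0] at e1
    have e2 : R0.card + (R1 ∪ R2).card = N := by
      have := Finset.card_compl_add_card (R1 ∪ R2)
      simpa [R0] using this
    rw [Finset.card_union_of_disjoint hd] at e2
    have e3 : finrank K (Fin N → K) = N := by simp
    omega
  obtain ⟨σ, hσ⟩ := LinearMap.exists_rightInverse_of_surjective W0.mkQ
    (LinearMap.range_eq_top.2 (Submodule.mkQ_surjective W0))
  let F : Q → (Fin N → K) [⋀^Fin R1.card]→ₗ[K] K := fun q => fixRows R1 (fun l => M p0 q l)
  have hFW : ∀ q (v : Fin R1.card → (Fin N → K)) (i : Fin R1.card) (x : Fin N → K), x ∈ W0 →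
      F q (Function.update v i x) = 0 := by
    intro q v i x hx
    have hle : W0 ≤ LinearMap.ker ((F q).toMultilinearMap.toLinearMap v i) := by
      rw [Submodule.span_le]
      rintro _ ⟨l, rfl⟩
      rw [SetLike.mem_coe, LinearMap.mem_ker]
      show F q (Function.update v i (c l)) = 0
      have hl := l.2
      simp only [R0, Finset.mem_compl, Finset.mem_union, not_or] at hl
      rw [fixRows_apply]
      have hne : (R1.equivFin.symm i).1 ≠ l.1 := by
        intro h
        exact hl.1 (h ▸ (R1.equivFin.symm i).2)
      apply Matrix.det_zero_of_row_eq hne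
      ext t
      simp only [Matrix.of_apply, Finset.coe_mem, dite_true, Subtype.coe_eta,
        Equiv.apply_symm_apply, Function.update_self]
      simp only [hl.1, dite_false]
      show M p0 q0 l.1 t = M p0 q l.1 t
      rw [h0 l.1 hl.1 hl.2 p0 p0 q0 q]
    exact hle hx
  let L : Q → (⋀[K]^R1.card ((Fin N → K) ⧸ W0)) →ₗ[K] K := fun q =>
    exteriorPower.alternatingMapLinearEquiv ((F q).compLinearMap σ)
  let T : (⋀[K]^R1.card ((Fin N → K) ⧸ W0)) →ₗ[K] (Q → K) := LinearMap.pi L
  refine ⟨LinearMap.range T, inferInstance, ?_, fun p => ?_⟩
  · refine (LinearMap.finrank_range_le T).trans ?_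
    rw [exteriorPower.finrank_eq, hquot]
  · refine ⟨exteriorPower.ιMulti K R1.card
      (fun i => W0.mkQ (M p q0 (R1.equivFin.symm i).1)), ?_⟩
    ext q
    show L q _ = _
    simp only [L, exteriorPower.alternatingMapLinearEquiv_apply_ιMulti]
    rw [AlternatingMap.compLinearMap_apply]
    rw [invariant_of_vanish (F q) W0 (hFW q) (fun i => M p q0 (R1.equivFin.symm i).1)]
    · rw [fixRows_apply]
      congr 1
      ext l t
      simp only [Matrix.of_apply]
      by_cases hl1 : l ∈ R1
      · simp only [hl1, dite_true, Equiv.symm_apply_apply]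
        rw [h1 l hl1 p q0 q]
      · simp only [hl1, dite_false]
        by_cases hl2 : l ∈ R2
        · rw [h2 l hl2 p0 p q]
        · rw [h0 l hl1 hl2 p0 p q q]
    · intro i
      have h5 := LinearMap.congr_fun hσ (W0.mkQ (M p q0 (R1.equivFin.symm i).1))
      simp only [LinearMap.comp_apply, LinearMap.id_apply] at h5
      have h6 : W0.mkQ (σ (W0.mkQ (M p q0 (R1.equivFin.symm i).1)) -
          M p q0 (R1.equivFin.symm i).1) = 0 := by
        rw [map_sub, h5, sub_self]
      exact (Submodule.Quotient.mk_eq_zero W0).1 h6

end Pool.Agent.H52DS
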