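import Pool.Agent.H52DS.ChainInst
import Pool.Agent.H524R2.Forster

/-!
# Lower bounds for tests by local determinants
-/

namespace Pool.Agent.H52DS
open Module

theorem choose_le (k D : ℕ) : (k + D).choose D ≤ (k + 1) ^ D := by
  induction D with
  | zero => simp
  | succ D ih =>
    have h1 := Nat.add_one_mul_choose_eq (k + D) D
    have h2 : (k + (D + 1)).choose (D + 1) * (D + 1) ≤ (k + 1) ^ (D + 1) * (D + 1) := by
      have h3 : (k + (D + 1)).choose (D + 1) * (D + 1) = (k + D + 1) * (k + D).choose D := by
        rw [← add_assoc]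
        exact h1.symm
      rw [h3]
      calc (k + D + 1) * (k + D).choose D ≤ ((k + 1) * (D + 1)) * (k + 1) ^ D := by
            apply Nat.mul_le_mul _ ih
            nlinarith
        _ = (k + 1) ^ (D + 1) * (D + 1) := by ring
    exact Nat.le_of_mul_le_mul_right h2 (by omega)

/-- the arithmetic at the end -/
theorem arith {k D r h b q : ℕ} (hq : q = 4 * D) (hb : b = 4 * D * (1 + 2 * r) + 1)
    (hk : k + 1 < 2 ^ h)
    (H : (2 ^ b) ^ h ≤
      ((k + D).choose D * ((2 ^ b) ^ (h / q) * (r * h + r * h).choose (r * h)) ^ D) ^ 2) : False := by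
  have hh : 1 ≤ h := by
    rcases Nat.eq_zero_or_pos h with h0 | h0
    · subst h0
      omega
    · exact h0
  have h1 : (k + D).choose D ≤ 2 ^ (h * D) := by
    refine (choose_le k D).trans ?_
    rw [pow_mul]
    exact Nat.pow_le_pow_left hk.le D
  have h2 : (r * h + r * h).choose (r * h) ≤ 2 ^ (r * h + r * h) := Nat.choose_le_two_pow _ _
  have h3 : (k + D).choose D * ((2 ^ b) ^ (h / q) * (r * h + r * h).choose (r * h)) ^ D ≤
      2 ^ (h * D + (b * (h / q) + (r * h + r * h)) * D) := by
    rw [pow_add, pow_mul 2 (b * (h / q) + (r * h + r * h)) D, pow_add 2 (b * (h / q)), pow_mul 2 b]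
    apply Nat.mul_le_mul h1
    apply Nat.pow_le_pow_left
    exact Nat.mul_le_mul_left _ h2
  have h4 : 2 ^ (b * h) ≤ 2 ^ ((h * D + (b * (h / q) + (r * h + r * h)) * D) * 2) := by
    rw [pow_mul 2 b h]
    refine H.trans ?_
    rw [pow_mul 2 _ 2]
    exact Nat.pow_le_pow_left h3 2
  have h5 : b * h ≤ (h * D + (b * (h / q) + (r * h + r * h)) * D) * 2 :=
    (Nat.pow_le_pow_iff_right (by norm_num)).1 h4
  have h6 : (h / q) * q ≤ h := Nat.div_mul_le_self h q
  have h7 : b * ((h / q) * q) ≤ b * h := Nat.mul_le_mul_left b h6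
  subst hq
  have h8 : 2 * (b * h) ≤ 4 * h * D + b * h + 8 * (r * h * D) := by nlinarith
  have h9 : b * h ≤ (4 * D * (1 + 2 * r)) * h := by nlinarith
  rw [hb] at h9
  have h10 : (4 * D * (1 + 2 * r) + 1) * h = (4 * D * (1 + 2 * r)) * h + h := by ring
  omega

theorem sizes {n c h w s : ℕ} (hc : c = w + (2 * s + 4) + 3) (hh : h = n / c) (h1 : 1 ≤ h) :
    h * w + (3 + h * (2 * s + 4)) ≤ n := by
  have h2 : h * c ≤ n := by
    rw [hh]
    exact Nat.div_mul_le_self n c
  rw [hc] at h2
  nlinarith

section

variable {K : Type*} [Field K]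

/-- the chain of equalities -/
theorem chain_eq {h : ℕ} {V : Type} (hh : 1 ≤ h) (x y : Fin h → V) :
    (∃ s : Fin (h + 1) → Bool, s 0 = false ∧ s (Fin.last h) = true ∧
      ∀ i : Fin h, x i = y i ∧ s i.succ = true) ↔ x = y := by
  constructor
  · rintro ⟨s, -, -, h1⟩
    funext i
    exact (h1 i).1
  · rintro rfl
    refine ⟨fun i => decide (i ≠ 0), by simp, ?_, fun i => ⟨rfl, ?_⟩⟩
    · simp only [ne_eq, decide_not, Bool.not_eq_eq_eq_not, Bool.not_true, decide_eq_false_iff_not]
      intro h0
      have := congrArg Fin.val h0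
      simp at this
      omega
    · simp [Fin.succ_ne_zero]

theorem zero_tests {n e k t r D : ℕ} (he : 1 ≤ e) (N : Fin k → ℕ)
    (A : ∀ i, (Fin n → (Fin (e + 1) → Fin n) → Bool) → Matrix (Fin (N i)) (Fin (N i)) K)
    (hA : ∀ i, LocalRows t r (A i)) (Z : Set (MvPolynomial (Fin k) K))
    (hZ : ∀ f ∈ Z, f.totalDegree ≤ D)
    (hdec : ∀ T, HasPM T ↔ ∃ f ∈ Z, MvPolynomial.eval (fun i => (A i T).det) f ≠ 0) :
    2 ^ (n / cst t r D) ≤ k + 1 := by
  classical
  by_contra hcon
  rw [not_le] at hcon
  set h := n / cst t r D with hh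
  have hh1 : 1 ≤ h := by
    rcases Nat.eq_zero_or_pos h with h0 | h0
    · rw [h0] at hcon
      omega
    · exact h0
  have hcV : Fintype.card (Fin (4 * (D + 1) * (1 + 2 * r) + 1) → Bool) =
      2 ^ (4 * (D + 1) * (1 + 2 * r) + 1) := by
    rw [Fintype.card_fun, Fintype.card_bool, Fintype.card_fin]
  have hsz : h * (6 ^ (4 * (D + 1)) * (r * t) + 1) +
      (3 + h * (2 * Fintype.card (Fin (4 * (D + 1) * (1 + 2 * r) + 1) → Bool) + 4)) ≤ n := by
    rw [hcV]
    exact sizes rfl hh hh1
  obtain ⟨T, hT, hU⟩ := family (V := Fin (4 * (D + 1) * (1 + 2 * r) + 1) → Bool) he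
    (q := 4 * (D + 1)) (by omega) hsz (by omega) (by omega) (by omega) N A hA
    (by rw [hcV]; positivity) (fun v w _ s' => v = w ∧ s' = true)
  choose U hU1 hU2 using hU
  have h1 := card_le_of_poly (D := D + 1) (B := Fintype.card (Fin (4 * (D + 1) * (1 + 2 * r) + 1) → Bool) ^
      (h / (4 * (D + 1))) * (r * h + r * h).choose (r * h))
    (by
      rw [hcV]
      apply Nat.mul_pos (by positivity)
      exact Nat.choose_pos (by omega))
    U hU1 (fun i x y => (A i (T x y)).det) hU2 Z (fun f hf => (hZ f hf).trans (by omega))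
    (by
      intro x y
      rw [← hdec, hT, chain_eq hh1])
  rw [Fintype.card_fun, Fintype.card_fin, hcV] at h1
  apply arith (k := k) (D := D + 1) (r := r) (h := h) rfl rfl hcon
  refine h1.trans ?_
  apply Nat.le_self_pow (by norm_num)

/-- the space spanned by the values of a polynomial of degree at most `D` -/
theorem poly_space {P : Type*} [Fintype P] {k D B : ℕ} (hB : 1 ≤ B)
    (U : Fin k → Submodule K (P → K)) (hU : ∀ i, finrank K (U i) ≤ B)
    (d : Fin k → P → P → K) (hD : ∀ i p, (fun q => d i p q) ∈ U i)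
    (f : MvPolynomial (Fin k) K) (hf : f.totalDegree ≤ D) :
    ∃ W : Submodule K (P → K), finrank K W ≤ (k + D).choose D * B ^ D ∧ (1 : P → K) ∈ W ∧
      ∀ p, (fun q => MvPolynomial.eval (fun i => d i p q) f) ∈ W := by
  classical
  let U' : Option (Fin k) → Submodule K (P → K) := fun o => o.elim (K ∙ (1 : P → K)) U
  have hU' : ∀ o, finrank K (U' o) ≤ B := by
    intro o
    cases o with
    | none =>
      exact (finrank_span_one_le (1 : P → K)).trans hB
    | some i => exact hU i
  let y : P → Option (Fin k) → (P → K) := fun p o => o.elim 1 (fun i q => d i p q)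
  have hy : ∀ p o, y p o ∈ U' o := by
    intro p o
    cases o with
    | none => exact Submodule.mem_span_singleton_self _
    | some i => exact hD i p
  have hmem : ∀ (z : Option (Fin k) → (P → K)), (∀ o, z o ∈ U' o) →
      ∀ (s : Multiset (Option (Fin k))), (s.map z).prod ∈ (s.map U').prod := by
    intro z hz s
    induction s using Multiset.induction_on with
    | empty =>
      simp only [Multiset.map_zero, Multiset.prod_zero]
      exact Submodule.one_le.1 le_rfl
    | cons a s ih =>
      rw [Multiset.map_cons, Multiset.prod_cons, Multiset.map_cons, Multiset.prod_cons]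
      exact Submodule.mul_mem_mul (hz a) ih
  have hrk : ∀ (s : Multiset (Option (Fin k))) (W : Submodule K (P → K)), W = (s.map U').prod →
      finrank K ↥W ≤ B ^ s.card := by
    intro s
    induction s using Multiset.induction_on with
    | empty =>
      intro W hW
      rw [Multiset.map_zero, Multiset.prod_zero, Submodule.one_eq_span] at hW
      rw [hW, Multiset.card_zero, pow_zero]
      exact finrank_span_one_le _
    | cons a s ih =>
      intro W hW
      rw [Multiset.map_cons, Multiset.prod_cons] at hW
      rw [hW, Multiset.card_cons, pow_succ, mul_comm (B ^ _)]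
      exact (finrank_mul_le _ _).trans (Nat.mul_le_mul (hU' a) (ih _ rfl))
  obtain ⟨W, hW1, hW2⟩ := exists_sum (fun s : Sym (Option (Fin k)) D => (s.1.map U').prod)
  have hprod : ∀ (p q : P) (m : Fin k →₀ ℕ) (t : ℕ),
      (((Finsupp.toMultiset m).map some + Multiset.replicate t none).map (y p)).prod q =
        ∏ i, (d i p q) ^ m i := by
    intro p q m t
    rw [Multiset.map_add, Multiset.prod_add, Multiset.map_replicate, Multiset.prod_replicate,
      Multiset.map_map]
    have h2 : y p none = 1 := rfl
    rw [h2, one_pow, mul_one, Finset.prod_multiset_map_count, Finset.prod_apply,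
      Finsupp.toFinset_toMultiset]
    rw [Finset.prod_subset (Finset.subset_univ m.support)]
    · apply Finset.prod_congr rfl
      intro i _
      rw [Finsupp.count_toMultiset]
      rfl
    · intro i _ hi
      rw [Finsupp.count_toMultiset, Finsupp.notMem_support_iff.1 hi, pow_zero]
      rfl
  refine ⟨W, ?_, ?_, ?_⟩
  · refine hW2.trans ?_
    refine (Finset.sum_le_card_nsmul Finset.univ _ (B ^ D) (fun s _ => ?_)).trans ?_
    · have := hrk s.1 _ rfl
      rwa [s.2] at this
    · rw [Finset.card_univ, Sym.card_sym_eq_choose, smul_eq_mul, Fintype.card_option,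
        Fintype.card_fin]
      have : k + 1 + D - 1 = k + D := by omega
      rw [this]
  · apply hW1 (Sym.replicate D none)
    have h1 := hmem (fun o => o.elim 1 (fun _ => 0)) (by
      intro o
      cases o with
      | none => exact Submodule.mem_span_singleton_self _
      | some i => exact Submodule.zero_mem _) (Multiset.replicate D none)
    have h2 : (Multiset.map (fun o : Option (Fin k) => o.elim (1 : P → K) (fun _ => 0))
        (Multiset.replicate D none)).prod = 1 := by
      rw [Multiset.map_replicate, Multiset.prod_replicate, Option.elim_none, one_pow]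
    rw [h2] at h1
    exact h1
  · intro p
    have h1 : (fun q => MvPolynomial.eval (fun i => d i p q) f) =
        ∑ m ∈ f.support, f.coeff m • (fun q => ∏ i, (d i p q) ^ m i) := by
      funext q
      rw [MvPolynomial.eval_eq', Finset.sum_apply]
      rfl
    rw [h1]
    apply Submodule.sum_mem
    intro m hm
    apply Submodule.smul_mem
    have h3 : Multiset.card (Finsupp.toMultiset m) ≤ D := by
      rw [Finsupp.card_toMultiset]
      exact (MvPolynomial.le_totalDegree hm).trans hf
    apply hW1 ⟨(Finsupp.toMultiset m).map some +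
          Multiset.replicate (D - Multiset.card (Finsupp.toMultiset m)) none, by
      rw [Multiset.card_add, Multiset.card_map, Multiset.card_replicate]
      omega⟩
    have h4 := hmem (y p) (hy p) ((Finsupp.toMultiset m).map some +
          Multiset.replicate (D - Multiset.card (Finsupp.toMultiset m)) none)
    convert h4 using 1
    funext q
    exact (hprod p q m _).symm

end

section real

/-- Forster's bound for a space of functions -/
theorem sign_bound {P : Type} [Fintype P] [DecidableEq P] (H : P → P → ℝ)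
    (hH : ∀ x y, |H x y| = 1)
    (horth : ∀ y y', ∑ x, H x y * H x y' = if y = y' then (Fintype.card P : ℝ) else 0)
    (F : P → P → ℝ) (W : Submodule ℝ (P → ℝ)) (hF : ∀ x, F x ∈ W)
    (hs : ∀ x y, 0 < H x y * F x y) :
    Fintype.card P ≤ (finrank ℝ W) ^ 2 := by
  rcases Nat.eq_zero_or_pos (Fintype.card P) with h0 | h0
  · rw [h0]
    exact Nat.zero_le _
  rcases le_or_gt (Fintype.card P) (finrank ℝ W) with h1 | h1
  · exact h1.trans (Nat.le_self_pow (by norm_num) _)
  let e := Fintype.equivFin P
  let bW := Module.finBasis ℝ W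
  have h2 := Pool.Agent.H524R2.forster (N := Fintype.card P) (d := finrank ℝ W) (Y := P)
    (fun i y => H (e.symm i) y) (fun i y => hH _ _)
    (by
      intro y y'
      rw [← horth y y']
      exact Equiv.sum_comp e.symm (fun x => H x y * H x y'))
    h0 h1.le
    (fun i j => bW.repr ⟨F (e.symm i), hF _⟩ j) (fun y j => (bW j : P → ℝ) y)
    (by
      intro i y
      have h3 : (fun j => bW.repr ⟨F (e.symm i), hF _⟩ j) ⬝ᵥ (fun j => (bW j : P → ℝ) y) =
          F (e.symm i) y := by
        have h4 := bW.sum_repr ⟨F (e.symm i), hF _⟩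
        have h5 := congrArg (fun w : W => (w : P → ℝ) y) h4
        simp only at h5
        rw [← h5]
        simp only [dotProduct, Submodule.coe_sum, Finset.sum_apply, Submodule.coe_smul,
          Pi.smul_apply, smul_eq_mul]
      rw [h3]
      exact hs _ _)
  exact_mod_cast h2

theorem orth_prod {h : ℕ} {V : Type} [Fintype V] [DecidableEq V] (η : V → V → ℝ)
    (hη : ∀ w w', ∑ v, η v w * η v w' = if w = w' then (Fintype.card V : ℝ) else 0)
    (y y' : Fin h → V) :
    ∑ x : Fin h → V, (∏ i, η (x i) (y i)) * (∏ i, η (x i) (y' i)) =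
      if y = y' then (Fintype.card (Fin h → V) : ℝ) else 0 := by
  have h1 := Finset.prod_univ_sum (fun _ : Fin h => (Finset.univ : Finset V))
    (fun i v => η v (y i) * η v (y' i))
  rw [Fintype.piFinset_univ] at h1
  simp_rw [← Finset.prod_mul_distrib]
  rw [← h1, Finset.prod_congr rfl (fun i _ => hη (y i) (y' i))]
  by_cases h2 : y = y'
  · subst h2
    simp
  · rw [if_neg h2]
    have h3 : ∃ i, y i ≠ y' i := by
      by_contra h4
      push Not at h4
      exact h2 (funext h4)
    obtain ⟨i, hi⟩ := h3
    apply Finset.prod_eq_zero (Finset.mem_univ i)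
    rw [if_neg hi]

/-- the character -/
def ch (b : ℕ) (v w : Fin b → Bool) : ℝ := ∏ j, (if (v j && w j) then -1 else 1)

theorem ch_cases (b : ℕ) (v w : Fin b → Bool) : ch b v w = 1 ∨ ch b v w = -1 := by
  unfold ch
  apply Finset.prod_induction _ (fun z : ℝ => z = 1 ∨ z = -1)
  · rintro a c (rfl | rfl) (rfl | rfl) <;> norm_num
  · left
    rfl
  · intro j _
    split_ifs
    · right
      rfl
    · left
      rfl

theorem ch_orth (b : ℕ) (w w' : Fin b → Bool) : ∑ v, ch b v w * ch b v w' =
    if w = w' then (Fintype.card (Fin b → Bool) : ℝ) else 0 := by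
  unfold ch
  apply orth_prod (fun s t : Bool => (if (s && t) then (-1 : ℝ) else 1))
  intro s t
  cases s <;> cases t <;> simp <;> norm_num

/-- sign of a state -/
def sg (s : Bool) : ℝ := if s then -1 else 1

theorem chain_sign {h : ℕ} (η : Fin h → ℝ) (hη : ∀ i, η i = 1 ∨ η i = -1) :
    (∃ s : Fin (h + 1) → Bool, s 0 = false ∧ s (Fin.last h) = true ∧
      ∀ i : Fin h, sg (s i.succ) = sg (s i.castSucc) * η i) ↔ ∏ i, η i = -1 := by
  classical
  let pre : Fin (h + 1) → ℝ := fun i => ∏ j ∈ Finset.univ.filter (fun j : Fin h => j.castSucc < i), η j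
  have hpre0 : pre 0 = 1 := by
    simp only [pre]
    rw [Finset.filter_false_of_mem, Finset.prod_empty]
    intro j _
    exact Fin.not_lt_zero _
  have hpreS : ∀ i : Fin h, pre i.succ = pre i.castSucc * η i := by
    intro i
    simp only [pre]
    have h1 : Finset.univ.filter (fun j : Fin h => j.castSucc < i.succ) =
        insert i (Finset.univ.filter (fun j : Fin h => j.castSucc < i.castSucc)) := by
      ext j
      simp only [Finset.mem_filter, Finset.mem_univ, true_and, Finset.mem_insert,
        Fin.castSucc_lt_castSucc_iff]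
      rw [Fin.castSucc_lt_succ_iff, le_iff_lt_or_eq, or_comm]
    rw [h1, Finset.prod_insert (by simp), mul_comm]
  have hpreL : pre (Fin.last h) = ∏ i, η i := by
    simp only [pre]
    rw [Finset.filter_true_of_mem]
    intro j _
    exact Fin.castSucc_lt_last j
  have hpre : ∀ i, pre i = 1 ∨ pre i = -1 := by
    intro i
    simp only [pre]
    apply Finset.prod_induction _ (fun z : ℝ => z = 1 ∨ z = -1)
    · rintro a c (rfl | rfl) (rfl | rfl) <;> norm_num
    · left
      rfl
    · intro j _
      exact hη j
  constructor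
  · rintro ⟨s, h0, h1, h2⟩
    have h3 : ∀ i, sg (s i) = pre i := by
      intro i
      induction i using Fin.induction with
      | zero =>
        rw [h0, hpre0]
        simp [sg]
      | succ i ih => rw [h2, ih, hpreS]
    rw [← hpreL, ← h3, h1]
    simp [sg]
  · intro hp
    have h3 : ∀ i, sg (decide (pre i = -1)) = pre i := by
      intro i
      rcases hpre i with h4 | h4
      · rw [h4]
        have : ¬ ((1 : ℝ) = -1) := by norm_num
        simp [sg, this]
      · rw [h4]
        simp [sg]
    refine ⟨fun i => decide (pre i = -1), ?_, ?_, ?_⟩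
    · show decide (pre 0 = -1) = false
      rw [hpre0]
      have : ¬ ((1 : ℝ) = -1) := by norm_num
      simp [this]
    · show decide (pre (Fin.last h) = -1) = true
      rw [hpreL, hp]
      simp
    · intro i
      rw [h3, h3, hpreS]

theorem sign_tests {n e k t r D : ℕ} (he : 1 ≤ e) (N : Fin k → ℕ)
    (A : ∀ i, (Fin n → (Fin (e + 1) → Fin n) → Bool) → Matrix (Fin (N i)) (Fin (N i)) ℝ)
    (hA : ∀ i, LocalRows t r (A i)) (f : MvPolynomial (Fin k) ℝ) (hf : f.totalDegree ≤ D)
    (hdec : ∀ T, HasPM T ↔ 0 < MvPolynomial.eval (fun i => (A i T).det) f) :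
    2 ^ (n / cst t r D) ≤ k + 1 := by
  classical
  by_contra hcon
  rw [not_le] at hcon
  set h := n / cst t r D with hh
  have hh1 : 1 ≤ h := by
    rcases Nat.eq_zero_or_pos h with h0 | h0
    · rw [h0] at hcon
      omega
    · exact h0
  set b := 4 * (D + 1) * (1 + 2 * r) + 1 with hb
  have hcV : Fintype.card (Fin b → Bool) = 2 ^ b := by
    rw [Fintype.card_fun, Fintype.card_bool, Fintype.card_fin]
  have hsz : h * (6 ^ (4 * (D + 1)) * (r * t) + 1) +
      (3 + h * (2 * Fintype.card (Fin b → Bool) + 4)) ≤ n := by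
    rw [hcV]
    exact sizes rfl hh hh1
  obtain ⟨T, hT, hU⟩ := family (V := Fin b → Bool) he
    (q := 4 * (D + 1)) (by omega) hsz (by omega) (by omega) (by omega) N A hA
    (by rw [hcV]; positivity) (fun v w s s' => sg s' = sg s * ch b v w)
  have hT' : ∀ x y, HasPM (T x y) ↔ ∏ i, ch b (x i) (y i) = -1 := by
    intro x y
    rw [hT, chain_sign (fun i => ch b (x i) (y i)) (fun i => ch_cases _ _ _)]
  choose U hU1 hU2 using hU
  obtain ⟨W, hW1, hW2, hW3⟩ := poly_space (D := D + 1) (B := Fintype.card (Fin b → Bool) ^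
      (h / (4 * (D + 1))) * (r * h + r * h).choose (r * h))
    (by
      rw [hcV]
      apply Nat.mul_pos (by positivity)
      exact Nat.choose_pos (by omega))
    U hU1 (fun i x y => (A i (T x y)).det) hU2 f (hf.trans (by omega))
  let G : (Fin h → (Fin b → Bool)) → (Fin h → (Fin b → Bool)) → ℝ := fun x y =>
    MvPolynomial.eval (fun i => (A i (T x y)).det) f
  have hG : ∀ x y, HasPM (T x y) ↔ 0 < G x y := fun x y => hdec _
  have hε : ∃ ε : ℝ, 0 < ε ∧ ∀ x y, 0 < G x y → ε < G x y := by
    let S : Finset ℝ := insert 1 ((Finset.univ.image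
      (fun z : (Fin h → (Fin b → Bool)) × (Fin h → (Fin b → Bool)) => G z.1 z.2)).filter
        (fun g => 0 < g))
    have hS : S.Nonempty := ⟨1, Finset.mem_insert_self _ _⟩
    have hpos : ∀ g ∈ S, 0 < g := by
      intro g hg
      rcases Finset.mem_insert.1 hg with h1 | h1
      · rw [h1]
        norm_num
      · exact (Finset.mem_filter.1 h1).2
    refine ⟨S.min' hS / 2, half_pos (hpos _ (S.min'_mem hS)), ?_⟩
    intro x y hxy
    have h1 : G x y ∈ S := by
      apply Finset.mem_insert_of_mem
      rw [Finset.mem_filter]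
      exact ⟨Finset.mem_image.2 ⟨(x, y), Finset.mem_univ _, rfl⟩, hxy⟩
    have h2 := S.min'_le _ h1
    have h3 := hpos _ (S.min'_mem hS)
    linarith
  obtain ⟨ε, hε0, hε1⟩ := hε
  have hfin := sign_bound (P := Fin h → (Fin b → Bool))
    (fun x y => -∏ i, ch b (x i) (y i))
    (by
      intro x y
      have h1 : ∏ i, ch b (x i) (y i) = 1 ∨ ∏ i, ch b (x i) (y i) = -1 := by
        apply Finset.prod_induction _ (fun z : ℝ => z = 1 ∨ z = -1)
        · rintro a c (rfl | rfl) (rfl | rfl) <;> norm_num
        · left
          rfl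
        · intro j _
          exact ch_cases _ _ _
      rcases h1 with h1 | h1 <;> rw [h1] <;> norm_num)
    (by
      intro y y'
      simp_rw [neg_mul_neg]
      exact orth_prod (ch b) (ch_orth b) y y')
    (fun x y => G x y - ε) W
    (by
      intro x
      have h1 : (fun y => G x y - ε) = (fun y => G x y) - ε • (1 : (Fin h → (Fin b → Bool)) → ℝ) := by
        funext y
        simp
      rw [h1]
      exact Submodule.sub_mem _ (hW3 x) (Submodule.smul_mem _ _ hW2))
    (by
      intro x y
      by_cases h1 : ∏ i, ch b (x i) (y i) = -1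
      · have h2 := hε1 x y ((hG x y).1 ((hT' x y).2 h1))
        rw [h1]
        linarith
      · have h2 : ∏ i, ch b (x i) (y i) = 1 := by
          have h3 : ∏ i, ch b (x i) (y i) = 1 ∨ ∏ i, ch b (x i) (y i) = -1 := by
            apply Finset.prod_induction _ (fun z : ℝ => z = 1 ∨ z = -1)
            · rintro a c (rfl | rfl) (rfl | rfl) <;> norm_num
            · left
              rfl
            · intro j _
              exact ch_cases _ _ _
          rcases h3 with h3 | h3
          · exact h3
          · exact absurd h3 h1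
        have h4 : ¬ 0 < G x y := fun h5 => h1 ((hT' x y).1 ((hG x y).2 h5))
        rw [h2]
        linarith)
  rw [Fintype.card_fun, Fintype.card_fin, hcV] at hfin
  apply arith (k := k) (D := D + 1) (r := r) (h := h) rfl rfl hcon
  refine hfin.trans (Nat.pow_le_pow_left ?_ 2)
  rw [hcV] at hW1
  exact hW1

end real

end Pool.Agent.H52DS
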