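import Pool.Agent.H52DS.Gadget

/-!
# Exponentially many row-wise determinants suffice (inclusion-exclusion over the further coordinates)
-/

namespace Pool.Agent.H52DS
open Module

theorem incl_excl {n : ℕ} (f : Fin n → Fin n) :
    (∑ V : Finset (Fin n), if ∀ a, f a ∈ V then (-1 : ℤ) ^ V.card else 0) =
      if Function.Bijective f then (-1) ^ n else 0 := by
  classical
  have h1 : (∑ V : Finset (Fin n), if ∀ a, f a ∈ V then (-1 : ℤ) ^ V.card else 0) =
      ∑ V : Finset (Fin n), if ∀ a, f a ∈ Vᶜ then (-1 : ℤ) ^ (Vᶜ).card else 0 := by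
    exact (Equiv.sum_comp (Function.Involutive.toPerm compl (compl_involutive (α := Finset (Fin n))))
      (fun V : Finset (Fin n) => if ∀ a, f a ∈ V then (-1 : ℤ) ^ V.card else 0)).symm
  have h2 : ∀ V : Finset (Fin n), (if ∀ a, f a ∈ Vᶜ then (-1 : ℤ) ^ (Vᶜ).card else 0) =
      (-1) ^ n * (if V ∈ ((Finset.univ.image f)ᶜ).powerset then (-1 : ℤ) ^ V.card else 0) := by
    intro V
    have h3 : (∀ a, f a ∈ Vᶜ) ↔ V ∈ ((Finset.univ.image f)ᶜ).powerset := by
      rw [Finset.mem_powerset]
      constructor
      · intro h x hx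
        rw [Finset.mem_compl, Finset.mem_image]
        rintro ⟨a, -, rfl⟩
        exact (Finset.mem_compl.1 (h a)) hx
      · intro h a
        rw [Finset.mem_compl]
        intro ha
        have := h ha
        rw [Finset.mem_compl] at this
        exact this (Finset.mem_image_of_mem f (Finset.mem_univ a))
    by_cases h4 : ∀ a, f a ∈ Vᶜ
    · rw [if_pos h4, if_pos (h3.1 h4)]
      have h5 : V.card + (Vᶜ).card = n := by
        rw [Finset.card_add_card_compl, Fintype.card_fin]
      have h7 : (-1 : ℤ) ^ n = (-1) ^ (Vᶜ).card * (-1) ^ V.card := by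
        rw [← pow_add, add_comm, h5]
      have h6 : ((-1 : ℤ) ^ V.card) * (-1) ^ V.card = 1 := by
        rw [← mul_pow]
        norm_num
      rw [h7, mul_assoc, h6, mul_one]
    · rw [if_neg h4, if_neg (fun h => h4 (h3.2 h)), mul_zero]
  rw [h1, Finset.sum_congr rfl (fun V _ => h2 V), ← Finset.mul_sum, Finset.sum_ite_mem,
    Finset.univ_inter, Finset.sum_powerset_neg_one_pow_card]
  have h7 : (Finset.univ.image f)ᶜ = ∅ ↔ Function.Bijective f := by
    rw [Finset.compl_eq_empty_iff, ← Finite.surjective_iff_bijective]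
    constructor
    · intro h x
      have : x ∈ Finset.univ.image f := by
        rw [h]
        exact Finset.mem_univ x
      obtain ⟨a, -, ha⟩ := Finset.mem_image.1 this
      exact ⟨a, ha⟩
    · intro h
      exact Finset.image_univ_of_surjective h
  by_cases h8 : Function.Bijective f
  · rw [if_pos h8, if_pos (h7.2 h8), mul_one]
  · rw [if_neg h8, if_neg (fun h => h8 (h7.1 h)), mul_zero]

variable {K : Type*} [Field K]

/-- the matrices -/
noncomputable def matA {n e : ℕ} (V : Fin e → Finset (Fin n))
    (W : Fin n → (Fin (e + 1) → Fin n) → K) : Matrix (Fin n) (Fin n) K :=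
  Matrix.of fun a b => ∑ c ∈ Fintype.piFinset V, W a (Fin.cons b c)

theorem sum_det {n e : ℕ} (W : Fin n → (Fin (e + 1) → Fin n) → K) :
    ∑ V : Fin e → Finset (Fin n), (∏ i, (-1 : K) ^ (V i).card) * (matA V W).det =
      ((-1) ^ n) ^ e * ∑ π : Fin (e + 1) → Equiv.Perm (Fin n),
        ((Equiv.Perm.sign (π 0) : ℤ) : K) * ∏ a, W a (fun i => π i a) := by
  classical
  have h1 : ∀ V : Fin e → Finset (Fin n), (matA V W).det =
      ∑ σ : Equiv.Perm (Fin n), ((Equiv.Perm.sign σ : ℤ) : K) *
        ∑ C : Fin n → Fin e → Fin n, (if ∀ a i, C a i ∈ V i then 1 else 0) *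
          ∏ a, W a (Fin.cons (σ a) (C a)) := by
    intro V
    rw [← Matrix.det_transpose, Matrix.det_apply']
    apply Finset.sum_congr rfl
    intro σ _
    congr 1
    simp only [matA, Matrix.transpose_apply, Matrix.of_apply]
    rw [Finset.prod_univ_sum]
    have h2 : (Fintype.piFinset fun _ : Fin n => Fintype.piFinset V) =
        Finset.univ.filter (fun C : Fin n → Fin e → Fin n => ∀ a i, C a i ∈ V i) := by
      ext C
      simp only [Fintype.mem_piFinset, Finset.mem_filter, Finset.mem_univ, true_and]
    rw [h2, Finset.sum_filter]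
    apply Finset.sum_congr rfl
    intro C _
    by_cases h3 : ∀ a i, C a i ∈ V i
    · rw [if_pos h3, if_pos h3, one_mul]
    · rw [if_neg h3, if_neg h3, zero_mul]
  have h4 : ∀ C : Fin n → Fin e → Fin n,
      ∑ V : Fin e → Finset (Fin n), (∏ i, (-1 : K) ^ (V i).card) *
        (if ∀ a i, C a i ∈ V i then 1 else 0) =
      if ∀ i, Function.Bijective (fun a => C a i) then ((-1) ^ n) ^ e else 0 := by
    intro C
    have h5 : ∀ V : Fin e → Finset (Fin n), (∏ i, (-1 : K) ^ (V i).card) *
        (if ∀ a i, C a i ∈ V i then 1 else 0) =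
        ∏ i, (((if ∀ a, C a i ∈ V i then (-1 : ℤ) ^ (V i).card else 0 : ℤ)) : K) := by
      intro V
      by_cases h6 : ∀ a i, C a i ∈ V i
      · rw [if_pos h6, mul_one]
        apply Finset.prod_congr rfl
        intro i _
        rw [if_pos (fun a => h6 a i)]
        push_cast
        rfl
      · rw [if_neg h6, mul_zero]
        push Not at h6
        obtain ⟨a, i, hai⟩ := h6
        symm
        apply Finset.prod_eq_zero (Finset.mem_univ i)
        rw [if_neg (fun h => hai (h a))]
        simp
    rw [Finset.sum_congr rfl (fun V _ => h5 V)]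
    have h7 := Finset.prod_univ_sum (fun _ : Fin e => (Finset.univ : Finset (Finset (Fin n))))
      (fun i V => (((if ∀ a, C a i ∈ V then (-1 : ℤ) ^ V.card else 0 : ℤ)) : K))
    rw [Fintype.piFinset_univ] at h7
    rw [← h7]
    have h8 : ∀ i, ∑ V : Finset (Fin n),
        (((if ∀ a, C a i ∈ V then (-1 : ℤ) ^ V.card else 0 : ℤ)) : K) =
        if Function.Bijective (fun a => C a i) then (-1) ^ n else 0 := by
      intro i
      rw [← Int.cast_sum, incl_excl (fun a => C a i)]
      by_cases h9 : Function.Bijective (fun a => C a i)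
      · rw [if_pos h9, if_pos h9]
        push_cast
        rfl
      · rw [if_neg h9, if_neg h9]
        simp
    rw [Finset.prod_congr rfl (fun i _ => h8 i), Fintype.prod_ite_zero]
    simp
  calc ∑ V : Fin e → Finset (Fin n), (∏ i, (-1 : K) ^ (V i).card) * (matA V W).det
      = ∑ V : Fin e → Finset (Fin n), ∑ σ : Equiv.Perm (Fin n), ∑ C : Fin n → Fin e → Fin n,
          ((∏ i, (-1 : K) ^ (V i).card) * (if ∀ a i, C a i ∈ V i then 1 else 0)) *
          (((Equiv.Perm.sign σ : ℤ) : K) * ∏ a, W a (Fin.cons (σ a) (C a))) := by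
        apply Finset.sum_congr rfl
        intro V _
        rw [h1, Finset.mul_sum]
        apply Finset.sum_congr rfl
        intro σ _
        rw [Finset.mul_sum, Finset.mul_sum]
        apply Finset.sum_congr rfl
        intro C _
        ring
    _ = ∑ σ : Equiv.Perm (Fin n), ∑ C : Fin n → Fin e → Fin n,
          (if ∀ i, Function.Bijective (fun a => C a i) then ((-1 : K) ^ n) ^ e else 0) *
          (((Equiv.Perm.sign σ : ℤ) : K) * ∏ a, W a (Fin.cons (σ a) (C a))) := by
        rw [Finset.sum_comm]
        apply Finset.sum_congr rfl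
        intro σ _
        rw [Finset.sum_comm]
        apply Finset.sum_congr rfl
        intro C _
        rw [← Finset.sum_mul, h4]
    _ = ∑ σ : Equiv.Perm (Fin n), ∑ τ : Fin e → Equiv.Perm (Fin n),
          ((-1 : K) ^ n) ^ e *
          (((Equiv.Perm.sign σ : ℤ) : K) * ∏ a, W a (Fin.cons (σ a) (fun i => τ i a))) := by
        apply Finset.sum_congr rfl
        intro σ _
        symm
        apply Fintype.sum_of_injective
          (fun (τ : Fin e → Equiv.Perm (Fin n)) (a : Fin n) (i : Fin e) => τ i a)
        · intro τ τ' h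
          funext i
          ext a
          exact congrArg Fin.val (congrFun (congrFun h a) i)
        · intro C hC
          rw [if_neg, zero_mul]
          intro h
          apply hC
          refine ⟨fun i => Equiv.ofBijective _ (h i), ?_⟩
          funext a i
          rfl
        · intro τ
          rw [if_pos]
          intro i
          exact (τ i).bijective
    _ = _ := by
        rw [Finset.mul_sum]
        rw [← (Fin.consEquiv (fun _ : Fin (e + 1) => Equiv.Perm (Fin n))).sum_comp,
          Fintype.sum_prod_type]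
        apply Finset.sum_congr rfl
        intro σ _
        apply Finset.sum_congr rfl
        intro τ _
        have h10 : ∀ a, (Fin.cons (σ a) (fun i => τ i a) : Fin (e + 1) → Fin n) =
            fun i => (Fin.cons σ τ : Fin (e + 1) → Equiv.Perm (Fin n)) i a := by
          intro a
          funext i
          refine Fin.cases ?_ (fun j => ?_) i
          · simp
          · simp
        simp only [Fin.consEquiv, Equiv.coe_fn_mk, Fin.cons_zero, h10]

/-- generic weights -/
theorem exists_weights (K : Type*) [Field K] [Infinite K] (n e : ℕ) :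
    ∃ w : Fin n × (Fin (e + 1) → Fin n) → K, ∀ T : Fin n → (Fin (e + 1) → Fin n) → Bool,
      HasPM T → ∑ π : Fin (e + 1) → Equiv.Perm (Fin n),
        ((Equiv.Perm.sign (π 0) : ℤ) : K) *
          ∏ a, (if T a (fun i => π i a) = true then w (a, fun i => π i a) else 0) ≠ 0 := by
  classical
  let F : (Fin n → (Fin (e + 1) → Fin n) → Bool) →
      MvPolynomial (Fin n × (Fin (e + 1) → Fin n)) K := fun T =>
    ∑ π : Fin (e + 1) → Equiv.Perm (Fin n),
      if ∀ a, T a (fun i => π i a) = true then
        MvPolynomial.monomial (∑ a, Finsupp.single (a, fun i => π i a) 1)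
          ((Equiv.Perm.sign (π 0) : ℤ) : K) else 0
  have hinj : Function.Injective (fun π : Fin (e + 1) → Equiv.Perm (Fin n) =>
      ∑ a : Fin n, (Finsupp.single (a, fun i => π i a) 1 : Fin n × (Fin (e + 1) → Fin n) →₀ ℕ)) := by
    intro π π' h
    have h1 : ∀ (π : Fin (e + 1) → Equiv.Perm (Fin n)) (b : Fin n) (c : Fin (e + 1) → Fin n),
        (∑ a : Fin n, (Finsupp.single (a, fun i => π i a) 1 :
          Fin n × (Fin (e + 1) → Fin n) →₀ ℕ)) (b, c) = if (fun i => π i b) = c then 1 else 0 := by
      intro π b c
      rw [Finsupp.finsetSum_apply, Finset.sum_eq_single b]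
      · rw [Finsupp.single_apply]
        simp
      · intro a _ hab
        rw [Finsupp.single_apply, if_neg]
        intro h2
        exact hab (Prod.ext_iff.1 h2).1
      · intro h2
        exact absurd (Finset.mem_univ b) h2
    funext i
    ext b
    have h2 := DFunLike.congr_fun h (b, fun i => π i b)
    simp only at h2
    rw [h1, h1, if_pos rfl] at h2
    have h3 : (fun i => π' i b) = (fun i => π i b) := by
      by_contra h4
      rw [if_neg h4] at h2
      exact one_ne_zero h2
    exact congrArg Fin.val (congrFun h3 i).symm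
  have hF : ∀ T, HasPM T → F T ≠ 0 := by
    rintro T ⟨π, hπ⟩ hz
    have h1 := congrArg (MvPolynomial.coeff (∑ a, Finsupp.single (a, fun i => π i a) 1)) hz
    simp only [F, MvPolynomial.coeff_sum, MvPolynomial.coeff_zero] at h1
    rw [Finset.sum_eq_single π] at h1
    · rw [if_pos hπ, MvPolynomial.coeff_monomial, if_pos rfl] at h1
      have h2 := Int.units_eq_one_or (Equiv.Perm.sign (π 0))
      rcases h2 with h2 | h2
      · rw [h2] at h1
        simp at h1
      · rw [h2] at h1
        simp at h1
    · intro π' _ hne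
      by_cases h2 : ∀ a, T a (fun i => π' i a) = true
      · rw [if_pos h2, MvPolynomial.coeff_monomial, if_neg]
        intro h3
        exact hne (hinj h3)
      · rw [if_neg h2, MvPolynomial.coeff_zero]
    · intro h2
      exact absurd (Finset.mem_univ π) h2
  have hprod : (∏ T ∈ Finset.univ.filter (fun T => HasPM (n := n) (e := e + 1) T), F T) ≠ 0 := by
    rw [Finset.prod_ne_zero_iff]
    intro T hT
    exact hF T (Finset.mem_filter.1 hT).2
  have hex : ∃ w, MvPolynomial.eval w
      (∏ T ∈ Finset.univ.filter (fun T => HasPM (n := n) (e := e + 1) T), F T) ≠ 0 := by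
    by_contra h
    push Not at h
    apply hprod
    apply MvPolynomial.funext
    intro w
    rw [h w, map_zero]
  obtain ⟨w, hw⟩ := hex
  refine ⟨w, fun T hT => ?_⟩
  rw [map_prod, Finset.prod_ne_zero_iff] at hw
  have h1 := hw T (Finset.mem_filter.2 ⟨Finset.mem_univ T, hT⟩)
  simp only [F, map_sum] at h1
  convert h1 using 2
  rename_i π _
  rw [Fintype.prod_ite_zero]
  by_cases h2 : ∀ a, T a (fun i => π i a) = true
  · rw [if_pos h2, if_pos h2, MvPolynomial.monomial_sum_index, map_mul, MvPolynomial.eval_C,
      map_prod]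
    congr 1
    apply Finset.prod_congr rfl
    intro a _
    exact (MvPolynomial.eval_X _).symm
  · rw [if_neg h2, if_neg h2, mul_zero, map_zero]

theorem upper (K : Type*) [Field K] [Infinite K] (n e : ℕ) :
    ∃ (A : Fin (2 ^ (e * n)) → (Fin n → (Fin (e + 1) → Fin n) → Bool) → Matrix (Fin n) (Fin n) K)
      (Λ : Submodule K (Fin (2 ^ (e * n)) → K)),
      (∀ i, RowWise 1 (A i)) ∧ ∀ T, HasPM T ↔ (fun i => (A i T).det) ∉ Λ := by
  classical
  obtain ⟨w, hw⟩ := exists_weights K n e
  have hcard : Fintype.card (Fin e → Finset (Fin n)) = 2 ^ (e * n) := by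
    rw [Fintype.card_fun, Fintype.card_finset, Fintype.card_fin, Fintype.card_fin, ← pow_mul,
      mul_comm]
  let E := Fintype.equivFinOfCardEq hcard
  let W : (Fin n → (Fin (e + 1) → Fin n) → Bool) → Fin n → (Fin (e + 1) → Fin n) → K :=
    fun T a c => if T a c = true then w (a, c) else 0
  let φ : (Fin (2 ^ (e * n)) → K) →ₗ[K] K :=
    ∑ i, (∏ j, (-1 : K) ^ (E.symm i j).card) • LinearMap.proj i
  have hφ : ∀ T : Fin n → (Fin (e + 1) → Fin n) → Bool,
      φ (fun i => (matA (E.symm i) (W T)).det) =
      ((-1) ^ n) ^ e * ∑ π : Fin (e + 1) → Equiv.Perm (Fin n),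
        ((Equiv.Perm.sign (π 0) : ℤ) : K) * ∏ a, W T a (fun i => π i a) := by
    intro T
    rw [← sum_det]
    simp only [φ, LinearMap.sum_apply, LinearMap.smul_apply, LinearMap.proj_apply, smul_eq_mul]
    exact Equiv.sum_comp E.symm (fun V : Fin e → Finset (Fin n) =>
      (∏ j, (-1 : K) ^ (V j).card) * (matA V (W T)).det)
  refine ⟨fun i T => matA (E.symm i) (W T), LinearMap.ker φ, ?_, ?_⟩
  · intro i
    refine ⟨fun l => some l, ?_, ?_⟩
    · intro a
      rw [Finset.card_le_one]
      intro x hx y hy
      simp only [Finset.mem_filter, Finset.mem_univ, true_and, Option.some.injEq] at hx hy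
      rw [hx, hy]
    · intro l T T' h
      have h1 : T l = T' l := h l rfl
      funext b
      simp only [matA, Matrix.of_apply, W, h1]
  · intro T
    rw [LinearMap.mem_ker, hφ]
    have hs : ((-1 : K) ^ n) ^ e ≠ 0 := by
      apply pow_ne_zero
      apply pow_ne_zero
      norm_num
    constructor
    · intro hT h0
      rcases mul_eq_zero.1 h0 with h1 | h1
      · exact hs h1
      · exact hw T hT h1
    · intro h0
      by_contra hT
      apply h0
      rw [Finset.sum_eq_zero, mul_zero]
      intro π _
      have h1 : ¬ ∀ a, T a (fun i => π i a) = true := fun h => hT ⟨π, h⟩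
      push Not at h1
      obtain ⟨a, ha⟩ := h1
      rw [Finset.prod_eq_zero (Finset.mem_univ a), mul_zero]
      simp only [W]
      rw [if_neg ha]

end Pool.Agent.H52DS
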